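import Mathlib

/-! The Hilbert transform on `L¹(ℝ)`, weights, and the Muckenhoupt condition. -/

set_option autoImplicit false

open MeasureTheory Filter Topology Set
open scoped ENNReal NNReal

namespace Pool.Agent.R234.MZ

/-- the truncated integral `∫_{|y - x| > δ} f(y) / (x - y) dy` -/
noncomputable def trunc (f : ℝ → ℂ) (x δ : ℝ) : ℂ :=
  ∫ y in {y : ℝ | δ < |y - x|}, f y / ((x - y : ℝ) : ℂ)

/-- the principal value integral of `f(y) / (x - y)` is `l` -/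
def IsPV (f : ℝ → ℂ) (x : ℝ) (l : ℂ) : Prop :=
  Tendsto (fun δ : ℝ => trunc f x δ) (𝓝[>] 0) (𝓝 l)

open Classical in
/-- The Hilbert transform `(1/π) p.v. ∫ f(y) / (x - y) dy`; by convention `0` at the points where
the principal value does not exist (a null set for integrable `f`). -/
noncomputable def hilb (f : ℝ → ℂ) (x : ℝ) : ℂ :=
  if h : ∃ l, IsPV f x l then (Real.pi : ℂ)⁻¹ * h.choose else 0

/-- a weight: measurable, locally integrable, with values in `[0, ∞)` and not a.e. zero -/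
def IsWeight (U : ℝ → ℝ≥0) : Prop :=
  Measurable U ∧ LocallyIntegrable (fun x => (U x : ℝ)) volume ∧ ¬ U =ᵐ[volume] 0

/-- the integral of `|F|^p U` -/
noncomputable def wint (p : ℝ) (U : ℝ → ℝ≥0) (F : ℝ → ℂ) : ℝ≥0∞ :=
  ∫⁻ x, ‖F x‖ₑ ^ p * (U x : ℝ≥0∞)

/-- The inequality `∫ |Hf|^p U ≤ C ∫ |f|^p U` for all `f ∈ L¹(ℝ)` with `∫ f = 0`. -/
def Admissible (p : ℝ) (U : ℝ → ℝ≥0) : Prop :=
  ∃ C : ℝ≥0, ∀ f : ℝ → ℂ, Integrable f → ∫ x, f x = 0 → wint p U (hilb f) ≤ C * wint p U f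

/-- The inequality `∫ |Hf|^p U ≤ C ∫ |f|^p U` for all `f ∈ L¹(ℝ)`. -/
def Unrestricted (p : ℝ) (U : ℝ → ℝ≥0) : Prop :=
  ∃ C : ℝ≥0, ∀ f : ℝ → ℂ, Integrable f → wint p U (hilb f) ≤ C * wint p U f

/-- Muckenhoupt's condition: for every bounded interval `I`,
`(∫_I W) (∫_I W^{-1/(p-1)})^{p-1} ≤ C |I|^p`. -/
def IsAp (p : ℝ) (W : ℝ → ℝ≥0) : Prop :=
  ∃ C : ℝ≥0, ∀ a b : ℝ, a < b →
    (∫⁻ x in Ioo a b, (W x : ℝ≥0∞)) * (∫⁻ x in Ioo a b, (W x : ℝ≥0∞) ^ (-(1 / (p - 1)))) ^ (p - 1)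
      ≤ C * ENNReal.ofReal (b - a) ^ p

/-- the weight `U(x) / |x - ζ|^p` for a complex number `ζ` -/
noncomputable def quot (p : ℝ) (U : ℝ → ℝ≥0) (ζ : ℂ) (x : ℝ) : ℝ≥0 := U x / ‖(x : ℂ) - ζ‖₊ ^ p

end Pool.Agent.R234.MZ
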