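import Mathlib
import Pool.Agent.R234.MZ.Defs

/-! Principal values. -/

set_option autoImplicit false

open MeasureTheory Filter Topology Set
open scoped ENNReal NNReal

namespace Pool.Agent.R234.MZ

theorem meas_out (x δ : ℝ) : MeasurableSet {y : ℝ | δ < |y - x|} :=
  measurableSet_lt measurable_const (by fun_prop)

theorem aemeas_div {f : ℝ → ℂ} (hf : Integrable f) (x : ℝ) :
    AEStronglyMeasurable (fun y : ℝ => f y / ((x - y : ℝ) : ℂ)) volume := by
  refine AEMeasurable.aestronglyMeasurable ?_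
  refine hf.1.aemeasurable.div ?_
  exact (by fun_prop : Measurable fun y : ℝ => ((x - y : ℝ) : ℂ)).aemeasurable

theorem norm_div_le {f : ℝ → ℂ} {x y δ : ℝ} (hδ : 0 < δ) (h : δ ≤ |y - x|) :
    ‖f y / ((x - y : ℝ) : ℂ)‖ ≤ δ⁻¹ * ‖f y‖ := by
  rw [norm_div, Complex.norm_real, Real.norm_eq_abs, abs_sub_comm, div_eq_inv_mul]
  exact mul_le_mul_of_nonneg_right (inv_anti₀ hδ h) (norm_nonneg _)

theorem integrableOn_trunc {f : ℝ → ℂ} (hf : Integrable f) (x : ℝ) {δ : ℝ} (hδ : 0 < δ) :
    IntegrableOn (fun y : ℝ => f y / ((x - y : ℝ) : ℂ)) {y : ℝ | δ < |y - x|} := by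
  refine Integrable.mono' (hf.norm.const_mul δ⁻¹).integrableOn (aemeas_div hf x).restrict ?_
  filter_upwards [ae_restrict_mem (meas_out x δ)] with y hy
  exact norm_div_le hδ (le_of_lt hy)

theorem trunc_add {f g : ℝ → ℂ} (hf : Integrable f) (hg : Integrable g) (x : ℝ) {δ : ℝ}
    (hδ : 0 < δ) : trunc (fun y => f y + g y) x δ = trunc f x δ + trunc g x δ := by
  unfold trunc
  rw [← integral_add (integrableOn_trunc hf x hδ) (integrableOn_trunc hg x hδ)]
  refine integral_congr_ae (Eventually.of_forall fun y => ?_)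
  simp only
  rw [add_div]

theorem trunc_smul (f : ℝ → ℂ) (c : ℂ) (x δ : ℝ) :
    trunc (fun y => c * f y) x δ = c * trunc f x δ := by
  unfold trunc
  rw [← integral_const_mul]
  refine integral_congr_ae (Eventually.of_forall fun y => ?_)
  simp only
  rw [mul_div_assoc]

theorem IsPV.add {f g : ℝ → ℂ} (hf : Integrable f) (hg : Integrable g) {x : ℝ} {l m : ℂ}
    (h1 : IsPV f x l) (h2 : IsPV g x m) : IsPV (fun y => f y + g y) x (l + m) := by
  unfold IsPV at *
  refine (h1.add h2).congr' ?_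
  filter_upwards [self_mem_nhdsWithin] with δ hδ
  rw [trunc_add hf hg x hδ]

theorem IsPV.const_mul {f : ℝ → ℂ} {x : ℝ} {l : ℂ} (h : IsPV f x l) (c : ℂ) :
    IsPV (fun y => c * f y) x (c * l) := by
  unfold IsPV at *
  simp_rw [trunc_smul]
  exact h.const_mul c

theorem hilb_eq {f : ℝ → ℂ} {x : ℝ} {l : ℂ} (h : IsPV f x l) :
    hilb f x = (Real.pi : ℂ)⁻¹ * l := by
  have hex : ∃ l, IsPV f x l := ⟨l, h⟩
  unfold hilb
  rw [dif_pos hex]
  congr 1
  exact tendsto_nhds_unique hex.choose_spec h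

theorem hilb_zero {f : ℝ → ℂ} {x : ℝ} (h : ¬ ∃ l, IsPV f x l) : hilb f x = 0 := by
  unfold hilb
  rw [dif_neg h]

/-- away from the support there is no singularity -/
theorem isPV_of_vanish {f : ℝ → ℂ} (hf : Integrable f) {x r : ℝ} (hr : 0 < r)
    (h0 : ∀ y, |y - x| < r → f y = 0) :
    IsPV f x (∫ y, f y / ((x - y : ℝ) : ℂ)) ∧
      ‖∫ y, f y / ((x - y : ℝ) : ℂ)‖ ≤ r⁻¹ * ∫ y, ‖f y‖ := by
  constructor
  · unfold IsPV
    refine tendsto_const_nhds.congr' ?_
    filter_upwards [Ioo_mem_nhdsGT hr] with δ hδ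
    unfold trunc
    rw [← integral_indicator (meas_out x δ)]
    refine integral_congr_ae (Eventually.of_forall fun y => ?_)
    simp only
    by_cases hy : δ < |y - x|
    · rw [indicator_of_mem (by exact hy)]
    · rw [indicator_of_notMem (by exact hy), h0 y (lt_of_le_of_lt (not_lt.1 hy) hδ.2), zero_div]
  · rw [← integral_const_mul]
    refine norm_integral_le_of_norm_le (hf.norm.const_mul _) (Eventually.of_forall fun y => ?_)
    by_cases hy : |y - x| < r
    · rw [h0 y hy]
      simp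
    · exact norm_div_le hr (not_lt.1 hy)

/-- odd symmetry -/
theorem trunc_sym (x r δ : ℝ) :
    trunc (indicator {y : ℝ | |y - x| < r} fun _ => (1 : ℂ)) x δ = 0 := by
  unfold trunc
  rw [← integral_indicator (meas_out x δ)]
  set φ : ℝ → ℂ := indicator {y : ℝ | δ < |y - x|} fun y =>
    (indicator {y : ℝ | |y - x| < r} (fun _ => (1 : ℂ)) y) / ((x - y : ℝ) : ℂ) with hφ
  have h1 : ∀ y, φ (2 * x - y) = - φ y := by
    intro y
    have e1 : |2 * x - y - x| = |y - x| := by
      rw [← abs_neg]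
      congr 1
      ring
    have e2 : ((x - (2 * x - y) : ℝ) : ℂ) = -((x - y : ℝ) : ℂ) := by
      push_cast
      ring
    by_cases h1 : δ < |y - x|
    · have h1' : 2 * x - y ∈ {y : ℝ | δ < |y - x|} := by
        show δ < |2 * x - y - x|
        rw [e1]
        exact h1
      have h1'' : y ∈ {y : ℝ | δ < |y - x|} := h1
      rw [hφ, indicator_of_mem h1', indicator_of_mem h1'']
      by_cases h2 : |y - x| < r
      · have h2' : 2 * x - y ∈ {y : ℝ | |y - x| < r} := by
          show |2 * x - y - x| < r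
          rw [e1]
          exact h2
        have h2'' : y ∈ {y : ℝ | |y - x| < r} := h2
        rw [indicator_of_mem h2', indicator_of_mem h2'', e2, div_neg]
      · have h2' : 2 * x - y ∉ {y : ℝ | |y - x| < r} := by
          show ¬ |2 * x - y - x| < r
          rw [e1]
          exact h2
        have h2'' : y ∉ {y : ℝ | |y - x| < r} := h2
        rw [indicator_of_notMem h2', indicator_of_notMem h2'', zero_div, zero_div, neg_zero]
    · have h1' : 2 * x - y ∉ {y : ℝ | δ < |y - x|} := by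
        show ¬ δ < |2 * x - y - x|
        rw [e1]
        exact h1
      have h1'' : y ∉ {y : ℝ | δ < |y - x|} := h1
      rw [hφ, indicator_of_notMem h1', indicator_of_notMem h1'', neg_zero]
  have h2 := integral_sub_left_eq_self φ volume (2 * x)
  have h3 : ∫ y, φ (2 * x - y) = -∫ y, φ y := by
    rw [← integral_neg]
    exact integral_congr_ae (Eventually.of_forall fun y => h1 y)
  rw [h3] at h2
  exact self_eq_neg.1 h2.symm

/-- a locally constant function has a principal value -/
theorem exists_isPV_of_locally_const {f : ℝ → ℂ} (hf : Integrable f) {x r : ℝ} (hr : 0 < r) (c : ℂ)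
    (h0 : ∀ y, |y - x| < r → f y = c) : ∃ l, IsPV f x l := by
  set g : ℝ → ℂ := indicator {y : ℝ | |y - x| < r} fun _ => (1 : ℂ) with hg
  have hgm : MeasurableSet {y : ℝ | |y - x| < r} :=
    measurableSet_lt (by fun_prop) measurable_const
  have hgi : Integrable g := by
    rw [hg, integrable_indicator_iff hgm]
    refine integrableOn_const (hs := ?_)
    have : {y : ℝ | |y - x| < r} = Metric.ball x r := by
      ext y
      rw [Metric.mem_ball, Real.dist_eq]
      rfl
    rw [this]
    exact measure_ball_lt_top.ne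
  have h1 : IsPV g x 0 := by
    unfold IsPV
    refine tendsto_const_nhds.congr' (Eventually.of_forall fun δ => ?_)
    exact (trunc_sym x r δ).symm
  have h2 : Integrable (fun y => f y + (-c) * g y) := hf.add (hgi.const_mul _)
  obtain ⟨h3, -⟩ := isPV_of_vanish h2 hr (fun y hy => by
    rw [h0 y hy, hg, indicator_of_mem (by exact hy)]
    ring)
  have h4 := h3.add h2 (hgi.const_mul c) (h1.const_mul c)
  have h5 : (fun y => f y + -c * g y + c * g y) = f := by
    funext y
    ring
  rw [h5] at h4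
  exact ⟨_, h4⟩

theorem tendsto_out {h : ℝ → ℂ} (hh : Integrable h) (x : ℝ) :
    Tendsto (fun δ : ℝ => ∫ y in {y : ℝ | δ < |y - x|}, h y) (𝓝[>] 0) (𝓝 (∫ y, h y)) := by
  have h1 : ∀ δ : ℝ, ∫ y in {y : ℝ | δ < |y - x|}, h y =
      ∫ y, indicator {y : ℝ | δ < |y - x|} h y := fun δ =>
    (integral_indicator (meas_out x δ)).symm
  simp_rw [h1]
  refine tendsto_integral_filter_of_dominated_convergence (fun y => ‖h y‖)
    (Eventually.of_forall fun δ => hh.1.indicator (meas_out x δ))
    (Eventually.of_forall fun δ => Eventually.of_forall fun y => norm_indicator_le_norm_self _ _)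
    hh.norm ?_
  have hne : ∀ᵐ y : ℝ, y ≠ x := by
    rw [ae_iff]
    simp
  filter_upwards [hne] with y hy
  refine tendsto_const_nhds.congr' ?_
  have hpos : 0 < |y - x| := abs_pos.2 (sub_ne_zero.2 hy)
  filter_upwards [Ioo_mem_nhdsGT hpos] with δ hδ
  rw [indicator_of_mem (by exact hδ.2)]

/-- the basic identity -/
theorem isPV_mul {h : ℝ → ℂ} (ζ : ℂ) (hh : Integrable h) {x : ℝ} {m : ℂ} (hm : IsPV h x m) :
    IsPV (fun y : ℝ => ((y : ℂ) - ζ) * h y) x (((x : ℂ) - ζ) * m - ∫ y, h y) := by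
  unfold IsPV at *
  refine ((hm.const_mul ((x : ℂ) - ζ)).sub (tendsto_out hh x)).congr' ?_
  filter_upwards [self_mem_nhdsWithin] with δ hδ
  unfold trunc
  rw [← integral_const_mul, ← integral_sub ((integrableOn_trunc hh x hδ).const_mul _)
    hh.integrableOn]
  refine setIntegral_congr_fun (meas_out x δ) fun y hy => ?_
  have hy' : (δ : ℝ) < |y - x| := hy
  have hne : ((x - y : ℝ) : ℂ) ≠ 0 := by
    rw [Ne, Complex.ofReal_eq_zero, sub_eq_zero]
    intro h1
    rw [h1, sub_self, abs_zero] at hy'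
    exact absurd hy' (not_lt.2 (le_of_lt hδ))
  simp only
  field_simp
  push_cast
  ring

theorem isPV_mul_iff {h : ℝ → ℂ} (ζ : ℂ) (hh : Integrable h)
    (hf : Integrable fun y : ℝ => ((y : ℂ) - ζ) * h y) {x : ℝ} (hx : (x : ℂ) ≠ ζ) {l : ℂ}
    (hl : IsPV (fun y : ℝ => ((y : ℂ) - ζ) * h y) x l) :
    IsPV h x (((x : ℂ) - ζ)⁻¹ * (l + ∫ y, h y)) := by
  have hne : (x : ℂ) - ζ ≠ 0 := sub_ne_zero.2 hx
  unfold IsPV at *
  refine ((hl.add (tendsto_out hh x)).const_mul (((x : ℂ) - ζ)⁻¹)).congr' ?_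
  filter_upwards [self_mem_nhdsWithin] with δ hδ
  unfold trunc
  rw [← integral_add (integrableOn_trunc hf x hδ) hh.integrableOn, ← integral_const_mul]
  refine setIntegral_congr_fun (meas_out x δ) fun y hy => ?_
  have hy' : (δ : ℝ) < |y - x| := hy
  have hne' : ((x - y : ℝ) : ℂ) ≠ 0 := by
    rw [Ne, Complex.ofReal_eq_zero, sub_eq_zero]
    intro h1
    rw [h1, sub_self, abs_zero] at hy'
    exact absurd hy' (not_lt.2 (le_of_lt hδ))
  field_simp
  push_cast
  ring

end Pool.Agent.R234.MZ
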