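import Mathlib
import Pool.Agent.R234.MZ.A

/-! Measurability of the Hilbert transform, and Fatou's lemma. -/

set_option autoImplicit false

open MeasureTheory Filter Topology Set
open scoped ENNReal NNReal

namespace Pool.Agent.R234.MZ

theorem trunc_congr {f g : ℝ → ℂ} (h : f =ᵐ[volume] g) (x δ : ℝ) : trunc f x δ = trunc g x δ := by
  unfold trunc
  refine integral_congr_ae ?_
  filter_upwards [ae_restrict_of_ae h] with y hy
  rw [hy]

theorem isPV_congr {f g : ℝ → ℂ} (h : f =ᵐ[volume] g) (x : ℝ) (l : ℂ) :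
    IsPV f x l ↔ IsPV g x l := by
  unfold IsPV
  simp_rw [trunc_congr h]

theorem hilb_congr {f g : ℝ → ℂ} (h : f =ᵐ[volume] g) (x : ℝ) : hilb f x = hilb g x := by
  by_cases hex : ∃ l, IsPV f x l
  · obtain ⟨l, hl⟩ := hex
    rw [hilb_eq hl, hilb_eq ((isPV_congr h x l).1 hl)]
  · rw [hilb_zero hex, hilb_zero]
    rintro ⟨l, hl⟩
    exact hex ⟨l, (isPV_congr h x l).2 hl⟩

theorem measurable_trunc {f : ℝ → ℂ} (hf : Measurable f) (δ : ℝ) :
    Measurable fun x => trunc f x δ := by
  have h1 : ∀ x, trunc f x δ = ∫ y, indicator {y : ℝ | δ < |y - x|}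
      (fun y => f y / ((x - y : ℝ) : ℂ)) y := fun x => (integral_indicator (meas_out x δ)).symm
  simp_rw [h1]
  have h2 : Measurable (Function.uncurry fun x y : ℝ => indicator {y : ℝ | δ < |y - x|}
      (fun y => f y / ((x - y : ℝ) : ℂ)) y) := by
    have h3 : (Function.uncurry fun x y : ℝ => indicator {y : ℝ | δ < |y - x|}
        (fun y => f y / ((x - y : ℝ) : ℂ)) y) = indicator {q : ℝ × ℝ | δ < |q.2 - q.1|}
        (fun q => f q.2 / ((q.1 - q.2 : ℝ) : ℂ)) := by
      funext q
      obtain ⟨x, y⟩ := q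
      by_cases hxy : δ < |y - x|
      · have e1 : y ∈ {y : ℝ | δ < |y - x|} := hxy
        have e2 : (x, y) ∈ {q : ℝ × ℝ | δ < |q.2 - q.1|} := hxy
        rw [Function.uncurry_apply_pair, indicator_of_mem e1, indicator_of_mem e2]
      · have e1 : y ∉ {y : ℝ | δ < |y - x|} := hxy
        have e2 : (x, y) ∉ {q : ℝ × ℝ | δ < |q.2 - q.1|} := hxy
        rw [Function.uncurry_apply_pair, indicator_of_notMem e1, indicator_of_notMem e2]
    rw [h3]
    refine Measurable.indicator ?_ (measurableSet_lt measurable_const (by fun_prop))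
    exact (hf.comp measurable_snd).div (by fun_prop)
  exact (h2.stronglyMeasurable.integral_prod_right (ν := volume)).measurable

theorem continuousOn_trunc {f : ℝ → ℂ} (hf : Integrable f) (x : ℝ) :
    ContinuousOn (fun δ => trunc f x δ) (Ioi 0) := by
  intro δ₀ hδ₀
  have hδ : (0 : ℝ) < δ₀ := hδ₀
  refine ContinuousAt.continuousWithinAt ?_
  have h1 : ∀ δ, trunc f x δ = ∫ y, indicator {y : ℝ | δ < |y - x|}
      (fun y => f y / ((x - y : ℝ) : ℂ)) y := fun δ => (integral_indicator (meas_out x δ)).symm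
  unfold ContinuousAt
  simp_rw [h1]
  refine tendsto_integral_filter_of_dominated_convergence (fun y => (δ₀ / 2)⁻¹ * ‖f y‖)
    (Eventually.of_forall fun δ => (aemeas_div hf x).indicator (meas_out x δ)) ?_
    (hf.norm.const_mul _) ?_
  · filter_upwards [lt_mem_nhds (half_lt_self hδ)] with δ h2
    refine Eventually.of_forall fun y => ?_
    by_cases hy : δ < |y - x|
    · rw [indicator_of_mem (by exact hy)]
      exact norm_div_le (by positivity) (h2.le.trans hy.le)
    · rw [indicator_of_notMem (by exact hy), norm_zero]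
      positivity
  · have hne : ∀ᵐ y : ℝ, |y - x| ≠ δ₀ := by
      rw [ae_iff]
      have : {y : ℝ | ¬ |y - x| ≠ δ₀} ⊆ {x + δ₀, x - δ₀} := by
        intro y hy
        have hy' : |y - x| = δ₀ := not_not.1 hy
        rcases abs_eq hδ.le |>.1 hy' with h2 | h2
        · left
          linarith
        · right
          rw [mem_singleton_iff]
          linarith
      exact measure_mono_null this (Set.Finite.measure_zero (by simp) _)
    filter_upwards [hne] with y hy
    refine tendsto_const_nhds.congr' ?_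
    rcases lt_or_gt_of_ne hy with h2 | h2
    · filter_upwards [lt_mem_nhds h2] with δ h3
      rw [indicator_of_notMem (by exact not_lt.2 h2.le), indicator_of_notMem (by exact not_lt.2 h3.le)]
    · filter_upwards [gt_mem_nhds h2] with δ h3
      rw [indicator_of_mem (by exact h2), indicator_of_mem (by exact h3)]

/-- rational truncations suffice -/
theorem tendsto_rat {T : ℝ → ℂ} (hT : ContinuousOn T (Ioi 0)) (l : ℂ) :
    Tendsto T (𝓝[>] 0) (𝓝 l) ↔
      Tendsto (fun q : ℚ => T q) (comap (fun q : ℚ => (q : ℝ)) (𝓝[>] 0)) (𝓝 l) := by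
  constructor
  · intro h
    exact h.comp tendsto_comap
  · intro h
    rw [Metric.tendsto_nhds] at h ⊢
    intro ε hε
    have h1 := h (ε / 2) (by positivity)
    rw [eventually_comap] at h1
    obtain ⟨δ₀, hδ₀, h2⟩ := mem_nhdsGT_iff_exists_Ioo_subset.1 h1
    filter_upwards [Ioo_mem_nhdsGT hδ₀] with δ hδ
    by_contra hcon
    rw [not_lt] at hcon
    have h3 : ε / 2 < dist (T δ) l := by linarith
    have h4 : ContinuousAt T δ := hT.continuousAt (Ioi_mem_nhds hδ.1)
    have h5 : ∀ᶠ δ' in 𝓝 δ, ε / 2 < dist (T δ') l :=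
      (h4.dist continuousAt_const).eventually (lt_mem_nhds h3)
    have h6 : ∀ᶠ δ' in 𝓝 δ, δ' ∈ Ioo 0 δ₀ := Ioo_mem_nhds hδ.1 hδ.2
    obtain ⟨ε', hε', h7⟩ := Metric.eventually_nhds_iff.1 (h5.and h6)
    obtain ⟨q, hq1, hq2⟩ := exists_rat_btwn (show δ < δ + ε' by linarith)
    have h8 := h7 (y := (q : ℝ)) (by rw [Real.dist_eq, abs_of_pos (by linarith)]; linarith)
    have h9 := h2 h8.2
    exact absurd (h9 q rfl) (not_lt.2 h8.1.le)

theorem measurable_hilb' {f : ℝ → ℂ} (hf : Integrable f) (hm : Measurable f) :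
    Measurable (hilb f) := by
  have hE : MeasurableSet {x : ℝ | ∃ l, IsPV f x l} := by
    have h1 : {x : ℝ | ∃ l, IsPV f x l} = {x : ℝ | ∃ l, Tendsto (fun q : ℚ => trunc f x q)
        (comap (fun q : ℚ => (q : ℝ)) (𝓝[>] 0)) (𝓝 l)} := by
      ext x
      refine exists_congr fun l => ?_
      exact tendsto_rat (continuousOn_trunc hf x) l
    rw [h1]
    exact measurableSet_exists_tendsto fun q => measurable_trunc hm _
  refine measurable_of_tendsto_metrizable (f := fun n : ℕ => indicator {x : ℝ | ∃ l, IsPV f x l}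
    fun x => (Real.pi : ℂ)⁻¹ * trunc f x (1 / ((n : ℝ) + 1))) (fun n => ?_) ?_
  · exact ((measurable_trunc hm _).const_mul _).indicator hE
  · rw [tendsto_pi_nhds]
    intro x
    by_cases hx : ∃ l, IsPV f x l
    · obtain ⟨l, hl⟩ := hx
      have hmem : x ∈ {x : ℝ | ∃ l, IsPV f x l} := ⟨l, hl⟩
      simp_rw [indicator_of_mem hmem]
      rw [hilb_eq hl]
      refine Tendsto.const_mul _ ?_
      have h2 : Tendsto (fun n : ℕ => 1 / ((n : ℝ) + 1)) atTop (𝓝[>] 0) := by
        rw [tendsto_nhdsWithin_iff]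
        refine ⟨tendsto_one_div_add_atTop_nhds_zero_nat, Eventually.of_forall fun n => ?_⟩
        exact mem_Ioi.2 (by positivity)
      exact hl.comp h2
    · have hmem : x ∉ {x : ℝ | ∃ l, IsPV f x l} := hx
      simp_rw [indicator_of_notMem hmem]
      rw [hilb_zero hx]
      exact tendsto_const_nhds

theorem measurable_hilb {f : ℝ → ℂ} (hf : Integrable f) : Measurable (hilb f) := by
  have h1 := hf.1.ae_eq_mk
  have h2 : hilb f = hilb (hf.1.mk f) := funext fun x => hilb_congr h1 x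
  rw [h2]
  exact measurable_hilb' (hf.congr h1) hf.1.stronglyMeasurable_mk.measurable

/-- Fatou's lemma in the form used below -/
theorem fatou {p : ℝ} {W : ℝ → ℝ≥0} {F : ℝ → ℂ} {G : ℕ → ℝ → ℝ≥0∞}
    (hG : ∀ k, Measurable (G k)) {Dk : ℕ → ℝ≥0∞} {D : ℝ≥0∞} (hle : ∀ k, ∫⁻ x, G k x ≤ Dk k)
    (hD : Tendsto Dk atTop (𝓝 D))
    (hlim : ∀ᵐ x, ‖F x‖ₑ ^ p * (W x : ℝ≥0∞) ≤ liminf (fun k => G k x) atTop) :
    wint p W F ≤ D := by
  unfold wint
  calc ∫⁻ x, ‖F x‖ₑ ^ p * (W x : ℝ≥0∞) ≤ ∫⁻ x, liminf (fun k => G k x) atTop :=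
        lintegral_mono_ae hlim
    _ ≤ liminf (fun k => ∫⁻ x, G k x) atTop := lintegral_liminf_le hG
    _ ≤ liminf Dk atTop := liminf_le_liminf (Eventually.of_forall hle)
    _ = D := hD.liminf_eq

end Pool.Agent.R234.MZ
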