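import Mathlib
import Pool.Agent.R234.MZ.B

/-! Approximate identities that are small in `L^p(U)`. -/

set_option autoImplicit false

open MeasureTheory Filter Topology Set
open scoped ENNReal NNReal

namespace Pool.Agent.R234.MZ

/-- the dual weight -/
noncomputable def dual (p : ℝ) (U : ℝ → ℝ≥0) (x : ℝ) : ℝ≥0∞ := (U x : ℝ≥0∞) ^ (-(1 / (p - 1)))

theorem measurable_dual (p : ℝ) {U : ℝ → ℝ≥0} (hU : Measurable U) : Measurable (dual p U) := by
  unfold dual
  exact (hU.coe_nnreal_ennreal).pow_const _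

theorem dual_pow {p : ℝ} (hp : 1 < p) (U : ℝ → ℝ≥0) (x : ℝ) :
    dual p U x ^ (p - 1) * (U x : ℝ≥0∞) ≤ 1 := by
  have hp' : p - 1 ≠ 0 := by linarith
  unfold dual
  rw [← ENNReal.rpow_mul]
  have h1 : -(1 / (p - 1)) * (p - 1) = -1 := by field_simp
  rw [h1, ENNReal.rpow_neg_one]
  by_cases h0 : (U x : ℝ≥0∞) = 0
  · rw [h0, mul_zero]
    exact zero_le_one
  · rw [ENNReal.inv_mul_cancel h0 ENNReal.coe_ne_top]

theorem exists_g {p : ℝ} (hp : 1 < p) {U : ℝ → ℝ≥0} (hU : Measurable U) {S : Set ℝ}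
    (hS : MeasurableSet S) (hinf : ∫⁻ x in S, dual p U x = ⊤) {ε : ℝ≥0∞} (hε : ε ≠ 0) :
    ∃ g : ℝ → ℝ≥0, Measurable g ∧ (∀ x, x ∉ S → g x = 0) ∧ ∫⁻ x, (g x : ℝ≥0∞) = 1 ∧
      ∫⁻ x, (g x : ℝ≥0∞) ^ p * (U x : ℝ≥0∞) ≤ ε := by
  have hp1 : 0 < p - 1 := by linarith
  set s : ℕ → ℝ → ℝ≥0∞ := fun m => indicator (S ∩ Icc (-(m : ℝ)) m)
    (fun x => min (dual p U x) m) with hs
  have hsm : ∀ m, Measurable (s m) := fun m =>
    ((measurable_dual p hU).min measurable_const).indicator (hS.inter measurableSet_Icc)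
  have hmono : ∀ x, Monotone fun m => s m x := by
    intro x m m' hmm
    simp only [hs]
    have hcast : (m : ℝ) ≤ m' := by exact_mod_cast hmm
    by_cases hx : x ∈ S ∩ Icc (-(m : ℝ)) m
    · have hx' : x ∈ S ∩ Icc (-(m' : ℝ)) m' :=
        ⟨hx.1, Icc_subset_Icc (neg_le_neg hcast) hcast hx.2⟩
      rw [indicator_of_mem hx, indicator_of_mem hx']
      exact min_le_min_left _ (by exact_mod_cast hmm)
    · rw [indicator_of_notMem hx]
      exact zero_le
  have hlim : ∀ x, Tendsto (fun m => s m x) atTop (𝓝 (indicator S (dual p U) x)) := by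
    intro x
    by_cases hx : x ∈ S
    · rw [indicator_of_mem hx]
      have h1 : Tendsto (fun m : ℕ => min (dual p U x) (m : ℝ≥0∞)) atTop
          (𝓝 (min (dual p U x) ⊤)) := tendsto_const_nhds.min ENNReal.tendsto_nat_nhds_top
      rw [min_eq_left le_top] at h1
      refine h1.congr' ?_
      filter_upwards [eventually_ge_atTop ⌈|x|⌉₊] with m hm
      have h2 : |x| ≤ m := (Nat.le_ceil _).trans (by exact_mod_cast hm)
      have h3 : x ∈ S ∩ Icc (-(m : ℝ)) m := ⟨hx, abs_le.1 h2⟩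
      simp only [hs]
      rw [indicator_of_mem h3]
    · rw [indicator_of_notMem hx]
      refine tendsto_const_nhds.congr fun m => ?_
      simp only [hs]
      rw [indicator_of_notMem (fun h => hx h.1)]
  have hA : Tendsto (fun m => ∫⁻ x, s m x) atTop (𝓝 ⊤) := by
    have h1 := lintegral_tendsto_of_tendsto_of_monotone (μ := volume)
      (F := indicator S (dual p U)) (f := s) (fun m => (hsm m).aemeasurable)
      (Eventually.of_forall hmono) (Eventually.of_forall hlim)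
    rwa [lintegral_indicator hS, hinf] at h1
  have hfin : ∀ m, ∫⁻ x, s m x ≠ ⊤ := by
    intro m
    have h1 : ∫⁻ x, s m x ≤ ∫⁻ x in Icc (-(m : ℝ)) m, (m : ℝ≥0∞) := by
      rw [← lintegral_indicator measurableSet_Icc]
      refine lintegral_mono fun x => ?_
      simp only [hs]
      by_cases hx : x ∈ S ∩ Icc (-(m : ℝ)) m
      · rw [indicator_of_mem hx, indicator_of_mem hx.2]
        exact min_le_right _ _
      · rw [indicator_of_notMem hx]
        exact zero_le
    refine ne_top_of_le_ne_top ?_ h1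
    rw [setLIntegral_const, Real.volume_Icc]
    exact ENNReal.mul_ne_top (ENNReal.natCast_ne_top m) ENNReal.ofReal_ne_top
  -- choose m
  have hB : Tendsto (fun m => (∫⁻ x, s m x) ^ (-(p - 1))) atTop (𝓝 0) := by
    have h1 := (ENNReal.continuous_rpow_const (y := -(p - 1))).tendsto ⊤ |>.comp hA
    rwa [ENNReal.top_rpow_of_neg (by linarith)] at h1
  obtain ⟨m, hm1, hm2⟩ : ∃ m, (∫⁻ x, s m x) ^ (-(p - 1)) < ε ∧ 0 < ∫⁻ x, s m x := by
    have h1 : ∀ᶠ m in atTop, (∫⁻ x, s m x) ^ (-(p - 1)) < ε :=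
      hB.eventually (gt_mem_nhds (pos_iff_ne_zero.2 hε))
    have h2 : ∀ᶠ m in atTop, 0 < ∫⁻ x, s m x := hA.eventually (lt_mem_nhds ENNReal.zero_lt_top)
    exact (h1.and h2).exists
  set A : ℝ≥0∞ := ∫⁻ x, s m x with hAd
  have hsfin : ∀ x, s m x ≠ ⊤ := by
    intro x
    simp only [hs]
    by_cases hx : x ∈ S ∩ Icc (-(m : ℝ)) m
    · rw [indicator_of_mem hx]
      exact ne_top_of_le_ne_top (ENNReal.natCast_ne_top m) (min_le_right _ _)
    · rw [indicator_of_notMem hx]
      exact ENNReal.zero_ne_top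
  have hgfin : ∀ x, s m x / A ≠ ⊤ := fun x => ENNReal.div_ne_top (hsfin x) hm2.ne'
  refine ⟨fun x => (s m x / A).toNNReal, ((hsm m).div_const _).ennreal_toNNReal, ?_, ?_, ?_⟩
  · intro x hx
    have : s m x = 0 := by
      simp only [hs]
      rw [indicator_of_notMem (fun h => hx h.1)]
    show (s m x / A).toNNReal = 0
    rw [this, ENNReal.zero_div, ENNReal.toNNReal_zero]
  · simp_rw [ENNReal.coe_toNNReal (hgfin _)]
    simp_rw [div_eq_mul_inv]
    rw [lintegral_mul_const _ (hsm m), ← hAd, ENNReal.mul_inv_cancel hm2.ne' (hfin m)]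
  · simp_rw [ENNReal.coe_toNNReal (hgfin _)]
    have h1 : ∀ x, (s m x / A) ^ p * (U x : ℝ≥0∞) ≤ A ^ (-p) * s m x := by
      intro x
      rw [ENNReal.div_rpow_of_nonneg _ _ (by linarith), div_eq_mul_inv, ← ENNReal.rpow_neg,
        mul_comm (s m x ^ p), mul_assoc]
      refine mul_le_mul_right ?_ _
      have h2 : s m x ≤ dual p U x := by
        simp only [hs]
        by_cases hx : x ∈ S ∩ Icc (-(m : ℝ)) m
        · rw [indicator_of_mem hx]
          exact min_le_left _ _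
        · rw [indicator_of_notMem hx]
          exact zero_le
      by_cases h0 : s m x = 0
      · rw [h0, ENNReal.zero_rpow_of_pos (by linarith), zero_mul]
      · have h3 : s m x ^ p = s m x * s m x ^ (p - 1) := by
          conv_lhs => rw [show p = 1 + (p - 1) by ring]
          rw [ENNReal.rpow_add _ _ h0 (hsfin x), ENNReal.rpow_one]
        rw [h3, mul_assoc]
        calc s m x * (s m x ^ (p - 1) * (U x : ℝ≥0∞))
            ≤ s m x * (dual p U x ^ (p - 1) * (U x : ℝ≥0∞)) := by gcongr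
          _ ≤ s m x * 1 := by gcongr; exact dual_pow hp U x
          _ = s m x := mul_one _
    calc ∫⁻ x, (s m x / A) ^ p * (U x : ℝ≥0∞) ≤ ∫⁻ x, A ^ (-p) * s m x := lintegral_mono h1
      _ = A ^ (-p) * A := by rw [lintegral_const_mul _ (hsm m)]
      _ = A ^ (-(p - 1)) := by
          conv_lhs => rw [← ENNReal.rpow_one A, ← ENNReal.rpow_mul, one_mul]
          rw [← ENNReal.rpow_add _ _ hm2.ne' (hfin m)]
          congr 1
          ring
      _ ≤ ε := hm1.le

/-- the trichotomy -/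
theorem trichotomy {p : ℝ} {U : ℝ → ℝ≥0} (hfin : ∫⁻ x, dual p U x ≠ ⊤ → False) :
    (∀ R : ℝ, ∫⁻ x in {x : ℝ | R < |x|}, dual p U x = ⊤) ∨
      ∃ x₀ : ℝ, ∀ r : ℝ, 0 < r → ∫⁻ x in Metric.ball x₀ r, dual p U x = ⊤ := by
  by_contra hcon
  push Not at hcon
  obtain ⟨⟨R, hR⟩, hloc⟩ := hcon
  have h1 : ∫⁻ x in Icc (-R) R, dual p U x ≠ ⊤ := by
    refine isCompact_Icc.induction_on (p := fun s => ∫⁻ x in s, dual p U x ≠ ⊤) ?_ ?_ ?_ ?_
    · simp
    · intro s t hst ht
      exact ne_top_of_le_ne_top ht (lintegral_mono_set hst)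
    · intro s t hs ht
      exact ne_top_of_le_ne_top (ENNReal.add_ne_top.2 ⟨hs, ht⟩) (lintegral_union_le _ _ _)
    · intro x _
      obtain ⟨r, hr, h⟩ := hloc x
      exact ⟨Metric.ball x r, mem_nhdsWithin_of_mem_nhds (Metric.ball_mem_nhds x hr), h⟩
  refine hfin (ne_top_of_le_ne_top (ENNReal.add_ne_top.2 ⟨h1, hR⟩) ?_)
  rw [← setLIntegral_univ]
  refine (lintegral_mono_set ?_).trans (lintegral_union_le _ _ _)
  intro x _
  by_cases hx : R < |x|
  · right
    exact hx
  · left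
    exact abs_le.1 (not_lt.1 hx)

end Pool.Agent.R234.MZ
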