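import Mathlib
import Pool.Agent.R234.MZ.C

/-! From the restricted inequality to an unrestricted one: the singular cases. -/

set_option autoImplicit false

open MeasureTheory Filter Topology Set
open scoped ENNReal NNReal

namespace Pool.Agent.R234.MZ

theorem ae_ne_complex (ζ : ℂ) : ∀ᵐ x : ℝ, (x : ℂ) ≠ ζ := by
  have : ∀ᵐ x : ℝ, x ≠ ζ.re := by
    rw [ae_iff]
    simp
  filter_upwards [this] with x hx h
  exact hx (by rw [← h, Complex.ofReal_re])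

theorem quot_mul {p : ℝ} (hp : 0 < p) (U : ℝ → ℝ≥0) {ζ : ℂ} {x : ℝ} (hx : (x : ℂ) ≠ ζ) :
    ‖(x : ℂ) - ζ‖ₑ ^ p * (quot p U ζ x : ℝ≥0∞) = U x := by
  have h1 : ‖(x : ℂ) - ζ‖₊ ≠ 0 := by
    rw [Ne, nnnorm_eq_zero, sub_eq_zero]
    exact hx
  have h2 : ‖(x : ℂ) - ζ‖₊ ^ p ≠ 0 := by
    rw [Ne, NNReal.rpow_eq_zero hp.ne']
    exact h1
  have h3 : ‖(x : ℂ) - ζ‖₊ ^ p * quot p U ζ x = U x := by
    unfold quot
    field_simp
  rw [enorm_eq_nnnorm, ← ENNReal.coe_rpow_of_nonneg _ hp.le, ← ENNReal.coe_mul, h3]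

theorem measurable_quot {p : ℝ} {U : ℝ → ℝ≥0} (hU : Measurable U) (ζ : ℂ) :
    Measurable (quot p U ζ) := by
  unfold quot
  refine hU.div ?_
  refine Measurable.pow_const ?_ _
  exact (by fun_prop : Measurable fun x : ℝ => (x : ℂ) - ζ).nnnorm

theorem wint_mul {p : ℝ} (hp : 0 < p) (U : ℝ → ℝ≥0) (ζ : ℂ) (F : ℝ → ℂ) :
    wint p (quot p U ζ) (fun x => ((x : ℂ) - ζ) * F x) = wint p U F := by
  unfold wint
  refine lintegral_congr_ae ?_
  filter_upwards [ae_ne_complex ζ] with x hx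
  rw [enorm_mul, ENNReal.mul_rpow_of_nonneg _ _ hp.le, mul_comm (‖(x : ℂ) - ζ‖ₑ ^ p), mul_assoc,
    quot_mul hp U hx]

theorem wint_add {p : ℝ} (hp : 1 ≤ p) {U : ℝ → ℝ≥0} (hU : Measurable U) (F : ℝ → ℂ) {G : ℝ → ℂ}
    (hG : AEMeasurable G volume) :
    wint p U (fun x => F x + G x) ≤ 2 ^ (p - 1) * (wint p U F + wint p U G) := by
  unfold wint
  have hm : AEMeasurable (fun x => ‖G x‖ₑ ^ p * (U x : ℝ≥0∞)) volume :=
    (hG.enorm.pow_const p).mul hU.coe_nnreal_ennreal.aemeasurable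
  rw [← lintegral_add_right' _ hm, ← lintegral_const_mul' _ _
    (ENNReal.rpow_ne_top_of_nonneg (by linarith) (by norm_num))]
  refine lintegral_mono fun x => ?_
  rw [← add_mul, ← mul_assoc]
  refine mul_le_mul_left ?_ _
  calc ‖F x + G x‖ₑ ^ p ≤ (‖F x‖ₑ + ‖G x‖ₑ) ^ p :=
        ENNReal.rpow_le_rpow (enorm_add_le _ _) (by linarith)
    _ ≤ _ := ENNReal.rpow_add_le_mul_rpow_add_rpow _ _ hp

theorem wint_const_mul {p : ℝ} (hp : 0 ≤ p) (U : ℝ → ℝ≥0) (c : ℂ) (F : ℝ → ℂ) :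
    wint p U (fun x => c * F x) = ‖c‖ₑ ^ p * wint p U F := by
  unfold wint
  rw [← lintegral_const_mul' _ _ (ENNReal.rpow_ne_top_of_nonneg hp enorm_ne_top)]
  refine lintegral_congr fun x => ?_
  rw [enorm_mul, ENNReal.mul_rpow_of_nonneg _ _ hp, mul_assoc]

/-- the complex function of a probability density -/
theorem gint {g : ℝ → ℝ≥0} (hg : Measurable g) (h1 : ∫⁻ x, (g x : ℝ≥0∞) = 1) :
    Integrable (fun x => ((g x : ℝ) : ℂ)) ∧ ∫ x, ((g x : ℝ) : ℂ) = 1 ∧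
      ∫ x, ‖((g x : ℝ) : ℂ)‖ = 1 := by
  have hn : ∀ x, ‖((g x : ℝ) : ℂ)‖ = (g x : ℝ) := fun x => by
    rw [Complex.norm_real, Real.norm_of_nonneg (g x).coe_nonneg]
  have hi : Integrable (fun x => (g x : ℝ)) := by
    refine ⟨hg.coe_nnreal_real.aestronglyMeasurable, ?_⟩
    unfold HasFiniteIntegral
    have : ∀ x, ‖(g x : ℝ)‖ₑ = (g x : ℝ≥0∞) := fun x => by
      rw [Real.enorm_eq_ofReal (g x).coe_nonneg, ENNReal.ofReal_coe_nnreal]
    simp_rw [this, h1]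
    exact ENNReal.one_lt_top
  have h2 : ∫ x, (g x : ℝ) = 1 := by
    rw [integral_eq_lintegral_of_nonneg_ae (Eventually.of_forall fun x => (g x).coe_nonneg) hi.1]
    simp_rw [ENNReal.ofReal_coe_nnreal, h1]
    simp
  refine ⟨hi.ofReal, ?_, ?_⟩
  · rw [integral_complex_ofReal, h2, Complex.ofReal_one]
  · simp_rw [hn]
    exact h2

theorem wint_g {p : ℝ} (U : ℝ → ℝ≥0) (g : ℝ → ℝ≥0) :
    wint p U (fun x => ((g x : ℝ) : ℂ)) = ∫⁻ x, (g x : ℝ≥0∞) ^ p * (U x : ℝ≥0∞) := by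
  unfold wint
  refine lintegral_congr fun x => ?_
  congr 2
  rw [enorm_eq_nnnorm]
  congr 1
  apply NNReal.eq
  rw [coe_nnnorm, Complex.norm_real, Real.norm_of_nonneg (g x).coe_nonneg]

theorem exists_eps (c : ℂ) (p : ℝ) (hp : 0 ≤ p) (k : ℕ) :
    ∃ ε : ℝ≥0∞, ε ≠ 0 ∧ ‖c‖ₑ ^ p * ε ≤ ((k : ℝ≥0∞) + 1)⁻¹ := by
  refine ⟨(((k : ℝ≥0∞) + 1) * (‖c‖ₑ ^ p + 1))⁻¹, ?_, ?_⟩
  · rw [ENNReal.inv_ne_zero]
    refine ENNReal.mul_ne_top (ENNReal.add_ne_top.2 ⟨ENNReal.natCast_ne_top k, ENNReal.one_ne_top⟩)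
      (ENNReal.add_ne_top.2 ⟨ENNReal.rpow_ne_top_of_nonneg hp enorm_ne_top, ENNReal.one_ne_top⟩)
  · rw [ENNReal.mul_inv (Or.inl (by positivity)) (Or.inr (by positivity)), mul_left_comm]
    refine mul_le_of_le_one_right' ?_
    rw [← div_eq_mul_inv]
    exact ENNReal.div_le_of_le_mul (by rw [one_mul]; exact le_self_add)

theorem tendsto_inv_succ : Tendsto (fun k : ℕ => ((k : ℝ≥0∞) + 1)⁻¹) atTop (𝓝 0) := by
  have h1 : Tendsto (fun k : ℕ => ((k : ℝ≥0∞) + 1)) atTop (𝓝 ⊤) := by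
    have := ENNReal.tendsto_nat_nhds_top.comp (tendsto_add_atTop_nat 1)
    refine this.congr fun k => ?_
    simp
  have := tendsto_inv_iff.2 h1
  rwa [ENNReal.inv_top] at this

/-- common estimate: `∫ |H(h - c g)|^p U` -/
theorem common {p : ℝ} (hp : 1 < p) {U : ℝ → ℝ≥0} (hU : Measurable U) {C : ℝ≥0}
    (hC : ∀ f : ℝ → ℂ, Integrable f → ∫ x, f x = 0 → wint p U (hilb f) ≤ C * wint p U f)
    {h : ℝ → ℂ} (hh : Integrable h) {g : ℝ → ℝ≥0} (hg : Measurable g)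
    (h1 : ∫⁻ x, (g x : ℝ≥0∞) = 1) {c : ℂ} (hc : ∫ x, h x = c) {e : ℝ≥0∞}
    (he : ‖c‖ₑ ^ p * ∫⁻ x, (g x : ℝ≥0∞) ^ p * (U x : ℝ≥0∞) ≤ e) :
    Integrable (fun x => h x + -c * ((g x : ℝ) : ℂ)) ∧
    wint p U (hilb fun x => h x + -c * ((g x : ℝ) : ℂ)) ≤
      C * (2 ^ (p - 1) * (wint p U h + e)) := by
  obtain ⟨g1, g2, -⟩ := gint hg h1
  have hi : Integrable (fun x => h x + -c * ((g x : ℝ) : ℂ)) := hh.add (g1.const_mul _)
  refine ⟨hi, (hC _ hi ?_).trans ?_⟩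
  · rw [integral_add hh (g1.const_mul _), integral_const_mul, g2, hc]
    ring
  · refine mul_le_mul_right ?_ _
    refine (wint_add hp.le hU h (g1.const_mul (-c)).1.aemeasurable).trans ?_
    refine mul_le_mul_right (add_le_add_right ?_ _) _
    rw [wint_const_mul (by linarith), wint_g, enorm_neg]
    exact he

/-- the singularity at infinity -/
theorem case_infty {p : ℝ} (hp : 1 < p) {U : ℝ → ℝ≥0} (hU : Measurable U)
    (hA : Admissible p U) (hs : ∀ R : ℝ, ∫⁻ x in {x : ℝ | R < |x|}, dual p U x = ⊤) :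
    Unrestricted p U := by
  obtain ⟨C, hC⟩ := hA
  refine ⟨C * 2 ^ (p - 1), fun f hf => ?_⟩
  set c := ∫ x, f x with hc
  have hex : ∀ k : ℕ, ∃ g : ℝ → ℝ≥0, Measurable g ∧ (∀ x, ¬ (k : ℝ) < |x| → g x = 0) ∧
      ∫⁻ x, (g x : ℝ≥0∞) = 1 ∧
      ‖c‖ₑ ^ p * ∫⁻ x, (g x : ℝ≥0∞) ^ p * (U x : ℝ≥0∞) ≤ ((k : ℝ≥0∞) + 1)⁻¹ := by
    intro k
    obtain ⟨ε, hε, hε2⟩ := exists_eps c p (by linarith) k
    obtain ⟨g, h1, h2, h3, h4⟩ := exists_g hp hU
      (measurableSet_lt measurable_const (by fun_prop : Measurable fun x : ℝ => |x|)) (hs k) hε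
    exact ⟨g, h1, h2, h3, (mul_le_mul_right h4 _).trans hε2⟩
  choose g hg1 hg2 hg3 hg4 using hex
  have hcom := fun k => common hp hU hC hf (hg1 k) (hg3 k) hc.symm (hg4 k)
  refine fatou (G := fun k x => ‖hilb (fun x => f x + -c * ((g k x : ℝ) : ℂ)) x‖ₑ ^ p *
    (U x : ℝ≥0∞)) (Dk := fun k => C * (2 ^ (p - 1) * (wint p U f + ((k : ℝ≥0∞) + 1)⁻¹)))
    (fun k => ((measurable_hilb (hcom k).1).enorm.pow_const p).mul hU.coe_nnreal_ennreal)
    (fun k => (hcom k).2) ?_ ?_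
  · have h1 : Tendsto (fun k : ℕ => (C : ℝ≥0∞) * (2 ^ (p - 1) *
        (wint p U f + ((k : ℝ≥0∞) + 1)⁻¹))) atTop
        (𝓝 ((C : ℝ≥0∞) * (2 ^ (p - 1) * (wint p U f + 0)))) := by
      refine ENNReal.Tendsto.const_mul (ENNReal.Tendsto.const_mul
        (tendsto_const_nhds.add tendsto_inv_succ) (Or.inr ?_)) (Or.inr ENNReal.coe_ne_top)
      exact ENNReal.rpow_ne_top_of_nonneg (by linarith) (by norm_num)
    rw [add_zero] at h1
    convert h1 using 2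
    rw [ENNReal.coe_mul, ENNReal.coe_rpow_of_nonneg _ (by linarith), mul_assoc]
    norm_cast
  · refine Eventually.of_forall fun x => ?_
    by_cases hex : ∃ l, IsPV f x l
    · obtain ⟨l, hl⟩ := hex
      -- the principal values of g k
      have hev : ∀ᶠ k : ℕ in atTop, hilb (fun x => f x + -c * ((g k x : ℝ) : ℂ)) x =
          (Real.pi : ℂ)⁻¹ * (l + -c * ∫ y, ((g k y : ℝ) : ℂ) / ((x - y : ℝ) : ℂ)) ∧
          ‖∫ y, ((g k y : ℝ) : ℂ) / ((x - y : ℝ) : ℂ)‖ ≤ ((k : ℝ) - |x|)⁻¹ := by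
        filter_upwards [eventually_gt_atTop ⌈|x|⌉₊] with k hk
        have hk' : |x| < k := (Nat.le_ceil _).trans_lt (by exact_mod_cast hk)
        obtain ⟨g1, g2, g3⟩ := gint (hg1 k) (hg3 k)
        have h1 := isPV_of_vanish g1 (x := x) (r := (k : ℝ) - |x|) (by linarith) (fun y hy => by
          rw [hg2 k y]
          · simp
          · rw [not_lt]
            have h3 := abs_add_le (y - x) x
            rw [sub_add_cancel] at h3
            linarith)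
        rw [g3, mul_one] at h1
        refine ⟨?_, h1.2⟩
        exact hilb_eq (hl.add hf (g1.const_mul _) (h1.1.const_mul _))
      have hz : Tendsto (fun k : ℕ => ∫ y, ((g k y : ℝ) : ℂ) / ((x - y : ℝ) : ℂ)) atTop (𝓝 0) := by
        rw [tendsto_zero_iff_norm_tendsto_zero]
        refine squeeze_zero' (Eventually.of_forall fun k => norm_nonneg _)
          (hev.mono fun k hk => hk.2) ?_
        refine tendsto_inv_atTop_zero.comp ?_
        exact tendsto_atTop_add_const_right _ _ tendsto_natCast_atTop_atTop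
      have hT : Tendsto (fun k : ℕ => hilb (fun x => f x + -c * ((g k x : ℝ) : ℂ)) x) atTop
          (𝓝 (hilb f x)) := by
        rw [hilb_eq hl]
        have h2 : Tendsto (fun k : ℕ => (Real.pi : ℂ)⁻¹ *
            (l + -c * ∫ y, ((g k y : ℝ) : ℂ) / ((x - y : ℝ) : ℂ))) atTop
            (𝓝 ((Real.pi : ℂ)⁻¹ * (l + -c * 0))) :=
          (tendsto_const_nhds.add (hz.const_mul _)).const_mul _
        rw [mul_zero, add_zero] at h2
        exact h2.congr' (hev.mono fun k hk => hk.1.symm)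
      have hT2 : Tendsto (fun k : ℕ => ‖hilb (fun x => f x + -c * ((g k x : ℝ) : ℂ)) x‖ₑ ^ p *
          (U x : ℝ≥0∞)) atTop (𝓝 (‖hilb f x‖ₑ ^ p * (U x : ℝ≥0∞))) := by
        refine ENNReal.Tendsto.mul_const ?_ (Or.inr ENNReal.coe_ne_top)
        exact (ENNReal.continuous_rpow_const.tendsto _).comp (hT.enorm)
      exact le_of_eq hT2.liminf_eq.symm
    · rw [hilb_zero hex, enorm_zero, ENNReal.zero_rpow_of_pos (by linarith), zero_mul]
      exact zero_le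

end Pool.Agent.R234.MZ
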