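import Mathlib
import Pool.Agent.R234.MZ.D

/-! The singular case at a finite point. -/

set_option autoImplicit false

open MeasureTheory Filter Topology Set
open scoped ENNReal NNReal

namespace Pool.Agent.R234.MZ

theorem exists_rho (c : ℂ) (k : ℕ) :
    ∃ ρ : ℝ, 0 < ρ ∧ ρ ≤ 1 / ((k : ℝ) + 1) ∧ ‖c‖ * ρ ≤ 1 / ((k : ℝ) + 1) := by
  have h0 : 0 < (k : ℝ) + 1 := by positivity
  have h1 : 0 < ‖c‖ + 1 := by positivity
  refine ⟨1 / (((k : ℝ) + 1) * (‖c‖ + 1)), by positivity, ?_, ?_⟩
  · refine one_div_le_one_div_of_le h0 ?_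
    nlinarith [norm_nonneg c]
  · rw [mul_one_div, div_le_div_iff₀ (by positivity) h0]
    nlinarith [norm_nonneg c]

/-- the singularity at a finite point -/
theorem case_point {p : ℝ} (hp : 1 < p) {U : ℝ → ℝ≥0} (hU : Measurable U)
    (hA : Admissible p U) (x₀ : ℝ)
    (hs : ∀ r : ℝ, 0 < r → ∫⁻ x in Metric.ball x₀ r, dual p U x = ⊤) :
    Unrestricted p (quot p U (x₀ : ℂ)) := by
  obtain ⟨C, hC⟩ := hA
  refine ⟨C * 2 ^ (p - 1), fun f hf => ?_⟩
  -- truncated functions
  set O : ℕ → Set ℝ := fun k => {y : ℝ | 1 / ((k : ℝ) + 1) < |y - x₀|} with hO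
  have hOm : ∀ k, MeasurableSet (O k) := fun k => meas_out x₀ _
  set h : ℕ → ℝ → ℂ := fun k => indicator (O k) fun y => f y / (((y - x₀ : ℝ)) : ℂ) with hh
  have hkpos : ∀ k : ℕ, (0 : ℝ) < 1 / ((k : ℝ) + 1) := fun k => by positivity
  have hhi : ∀ k, Integrable (h k) := by
    intro k
    simp only [hh]
    rw [integrable_indicator_iff (hOm k)]
    refine Integrable.mono' (hf.norm.const_mul (1 / ((k : ℝ) + 1))⁻¹).integrableOn ?_ ?_
    · refine AEStronglyMeasurable.restrict (AEMeasurable.aestronglyMeasurable ?_)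
      exact hf.1.aemeasurable.div
        (by fun_prop : Measurable fun y : ℝ => ((y - x₀ : ℝ) : ℂ)).aemeasurable
    · filter_upwards [ae_restrict_mem (hOm k)] with y hy
      rw [norm_div, Complex.norm_real, Real.norm_eq_abs, div_eq_inv_mul]
      exact mul_le_mul_of_nonneg_right (inv_anti₀ (hkpos k) (le_of_lt hy)) (norm_nonneg _)
  have hmul : ∀ k, (fun y : ℝ => ((y : ℂ) - (x₀ : ℂ)) * h k y) = indicator (O k) f := by
    intro k
    funext y
    simp only [hh]
    by_cases hy : y ∈ O k
    · rw [indicator_of_mem hy, indicator_of_mem hy]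
      have hne : ((y - x₀ : ℝ) : ℂ) ≠ 0 := by
        rw [Ne, Complex.ofReal_eq_zero]
        intro h0
        have hy' : 1 / ((k : ℝ) + 1) < |y - x₀| := hy
        rw [h0, abs_zero] at hy'
        exact absurd hy' (not_lt.2 (hkpos k).le)
      rw [← Complex.ofReal_sub]
      field_simp
    · rw [indicator_of_notMem hy, indicator_of_notMem hy, mul_zero]
  have hex : ∀ k : ℕ, ∃ (ρ : ℝ) (g : ℝ → ℝ≥0), 0 < ρ ∧ ρ ≤ 1 / ((k : ℝ) + 1) ∧
      ‖∫ y, h k y‖ * ρ ≤ 1 / ((k : ℝ) + 1) ∧ Measurable g ∧
      (∀ x, x ∉ Metric.ball x₀ ρ → g x = 0) ∧ ∫⁻ x, (g x : ℝ≥0∞) = 1 ∧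
      ‖∫ y, h k y‖ₑ ^ p * ∫⁻ x, (g x : ℝ≥0∞) ^ p * (U x : ℝ≥0∞) ≤ ((k : ℝ≥0∞) + 1)⁻¹ := by
    intro k
    obtain ⟨ρ, hρ, hρ2, hρ3⟩ := exists_rho (∫ y, h k y) k
    obtain ⟨ε, hε, hε2⟩ := exists_eps (∫ y, h k y) p (by linarith) k
    obtain ⟨g, h1, h2, h3, h4⟩ := exists_g hp hU Metric.isOpen_ball.measurableSet (hs ρ hρ) hε
    exact ⟨ρ, g, hρ, hρ2, hρ3, h1, h2, h3, (mul_le_mul_right h4 _).trans hε2⟩
  choose ρ g hρ0 hρ1 hρ2 hg1 hg2 hg3 hg4 using hex
  have hcom := fun k => common hp hU hC (hhi k) (hg1 k) (hg3 k) rfl (hg4 k)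
  have hhf : ∀ k, wint p U (h k) ≤ wint p (quot p U (x₀ : ℂ)) f := by
    intro k
    rw [← wint_mul (by linarith) U (x₀ : ℂ) (h k), hmul k]
    unfold wint
    refine lintegral_mono fun x => ?_
    refine mul_le_mul_left (ENNReal.rpow_le_rpow ?_ (by linarith)) _
    exact enorm_indicator_le_enorm_self _ _
  refine fatou (G := fun k x => ‖hilb (fun x => h k x + -(∫ y, h k y) * ((g k x : ℝ) : ℂ)) x‖ₑ ^ p *
    (U x : ℝ≥0∞)) (Dk := fun k => C * (2 ^ (p - 1) *
      (wint p (quot p U (x₀ : ℂ)) f + ((k : ℝ≥0∞) + 1)⁻¹)))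
    (fun k => ((measurable_hilb (hcom k).1).enorm.pow_const p).mul hU.coe_nnreal_ennreal)
    (fun k => (hcom k).2.trans ?_) ?_ ?_
  · exact mul_le_mul_right (mul_le_mul_right (add_le_add_left (hhf k) _) _) _
  · have h1 : Tendsto (fun k : ℕ => (C : ℝ≥0∞) * (2 ^ (p - 1) *
        (wint p (quot p U (x₀ : ℂ)) f + ((k : ℝ≥0∞) + 1)⁻¹))) atTop
        (𝓝 ((C : ℝ≥0∞) * (2 ^ (p - 1) * (wint p (quot p U (x₀ : ℂ)) f + 0)))) := by
      refine ENNReal.Tendsto.const_mul (ENNReal.Tendsto.const_mul
        (tendsto_const_nhds.add tendsto_inv_succ) (Or.inr ?_)) (Or.inr ENNReal.coe_ne_top)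
      exact ENNReal.rpow_ne_top_of_nonneg (by linarith) (by norm_num)
    rw [add_zero] at h1
    convert h1 using 2
    rw [ENNReal.coe_mul, ENNReal.coe_rpow_of_nonneg _ (by linarith), mul_assoc]
    norm_cast
  · filter_upwards [ae_ne_complex (x₀ : ℂ)] with x hx
    by_cases hex : ∃ l, IsPV f x l
    · obtain ⟨l, hl⟩ := hex
      have hx' : x - x₀ ≠ 0 := by
        intro h0
        exact hx (by rw [sub_eq_zero.1 h0])
      have hxC : (x : ℂ) - (x₀ : ℂ) ≠ 0 := sub_ne_zero.2 hx
      set r : ℝ := |x - x₀| / 2 with hr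
      have hrpos : 0 < r := by positivity
      have hr2 : 2 * r = |x - x₀| := by rw [hr]; ring
      -- the remainder
      set R : ℕ → ℝ → ℂ := fun k => indicator (O k)ᶜ f with hR
      have hRi : ∀ k, Integrable (R k) := fun k => hf.indicator (hOm k).compl
      have hsmall : ∀ᶠ k : ℕ in atTop, 1 / ((k : ℝ) + 1) < r :=
        (tendsto_one_div_add_atTop_nhds_zero_nat (𝕜 := ℝ)).eventually (gt_mem_nhds hrpos)
      have hRv : ∀ᶠ k : ℕ in atTop, IsPV (R k) x (∫ y, R k y / ((x - y : ℝ) : ℂ)) ∧
          ‖∫ y, R k y / ((x - y : ℝ) : ℂ)‖ ≤ r⁻¹ * ∫ y, ‖R k y‖ := by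
        filter_upwards [hsmall] with k hk
        refine isPV_of_vanish (hRi k) hrpos fun y hy => ?_
        simp only [hR]
        rw [indicator_of_notMem]
        rw [notMem_compl_iff]
        show 1 / ((k : ℝ) + 1) < |y - x₀|
        have h3 := abs_sub_le x y x₀
        rw [abs_sub_comm x y] at h3
        linarith
      have hR0 : Tendsto (fun k => ∫ y, ‖R k y‖) atTop (𝓝 0) := by
        have h1 : Tendsto (fun k => ∫ y, ‖R k y‖) atTop (𝓝 (∫ _y : ℝ, (0 : ℝ))) := by
          refine tendsto_integral_of_dominated_convergence (fun y => ‖f y‖)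
            (fun k => (hRi k).1.norm) hf.norm (fun k => Eventually.of_forall fun y => ?_) ?_
          · rw [norm_norm]
            exact norm_indicator_le_norm_self _ _
          · have hne : ∀ᵐ y : ℝ, y ≠ x₀ := by
              rw [ae_iff]
              simp
            filter_upwards [hne] with y hy
            refine tendsto_const_nhds.congr' ?_
            have hpos : 0 < |y - x₀| := abs_pos.2 (sub_ne_zero.2 hy)
            filter_upwards [(tendsto_one_div_add_atTop_nhds_zero_nat (𝕜 := ℝ)).eventually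
              (gt_mem_nhds hpos)] with k hk
            simp only [hR]
            rw [indicator_of_notMem (by rw [notMem_compl_iff]; exact hk), norm_zero]
        simpa using h1
      have hRt : Tendsto (fun k => ∫ y, R k y / ((x - y : ℝ) : ℂ)) atTop (𝓝 0) := by
        rw [tendsto_zero_iff_norm_tendsto_zero]
        refine squeeze_zero' (Eventually.of_forall fun k => norm_nonneg _)
          (hRv.mono fun k hk => hk.2) ?_
        have := hR0.const_mul r⁻¹
        rwa [mul_zero] at this
      -- the principal values of the auxiliary functions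
      have hmain : ∀ᶠ k : ℕ in atTop, ∃ e : ℂ, ‖e‖ ≤ r⁻¹ * (1 / ((k : ℝ) + 1)) ∧
          hilb (fun x => h k x + -(∫ y, h k y) * ((g k x : ℝ) : ℂ)) x = (Real.pi : ℂ)⁻¹ *
          (((x : ℂ) - (x₀ : ℂ))⁻¹ * ((l + -1 * ∫ y, R k y / ((x - y : ℝ) : ℂ)) + e)) := by
        filter_upwards [hsmall, hRv] with k hk hkR
        obtain ⟨g1, g2, g3⟩ := gint (hg1 k) (hg3 k)
        have hgv : ∀ y, ((g k y : ℝ) : ℂ) ≠ 0 → |y - x₀| < ρ k := by
          intro y hy
          by_contra hcon
          apply hy
          rw [hg2 k y (by rw [Metric.mem_ball, Real.dist_eq]; exact hcon)]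
          simp
        have hP1 := isPV_of_vanish g1 (x := x) hrpos (fun y hy => by
          by_contra hne
          have h3 := abs_sub_le x y x₀
          rw [abs_sub_comm x y] at h3
          have h4 := hgv y hne
          have h5 := hρ1 k
          linarith)
        -- principal value of indicator
        have hP2 : IsPV (fun y : ℝ => ((y : ℂ) - (x₀ : ℂ)) * h k y) x
            (l + -1 * ∫ y, R k y / ((x - y : ℝ) : ℂ)) := by
          rw [hmul k]
          have h6 := hl.add hf ((hRi k).const_mul (-1)) (hkR.1.const_mul (-1))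
          have h7 : (fun y => f y + -1 * R k y) = indicator (O k) f := by
            funext y
            simp only [hR]
            by_cases hy : y ∈ O k
            · rw [indicator_of_mem hy, indicator_of_notMem (by rw [notMem_compl_iff]; exact hy)]
              ring
            · rw [indicator_of_notMem hy, indicator_of_mem (by exact hy)]
              ring
          rwa [h7] at h6
        have hP3 := isPV_mul_iff (x₀ : ℂ) (hhi k) (by rw [hmul k]; exact hf.indicator (hOm k)) hx hP2
        have hP4 := hP3.add (hhi k) (g1.const_mul (-(∫ y, h k y))) (hP1.1.const_mul _)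
        refine ⟨(∫ y, h k y) * (1 - ((x : ℂ) - (x₀ : ℂ)) *
          ∫ y, ((g k y : ℝ) : ℂ) / ((x - y : ℝ) : ℂ)), ?_, ?_⟩
        · have h8 : 1 - ((x : ℂ) - (x₀ : ℂ)) * ∫ y, ((g k y : ℝ) : ℂ) / ((x - y : ℝ) : ℂ) =
              ∫ y, ((g k y : ℝ) : ℂ) * (((x₀ - y : ℝ) : ℂ) / ((x - y : ℝ) : ℂ)) := by
            have hgi : Integrable fun y : ℝ => ((g k y : ℝ) : ℂ) / ((x - y : ℝ) : ℂ) := by
              refine Integrable.mono' (g1.norm.const_mul r⁻¹) (aemeas_div g1 x)
                (Eventually.of_forall fun y => ?_)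
              by_cases hgy : ((g k y : ℝ) : ℂ) = 0
              · rw [hgy]
                simp
              · refine norm_div_le (f := fun y => ((g k y : ℝ) : ℂ)) hrpos ?_
                have h3 := abs_sub_le x y x₀
                rw [abs_sub_comm x y] at h3
                have h4 := hgv y hgy
                have h5 := hρ1 k
                linarith
            rw [← g2, ← integral_const_mul, ← integral_sub g1 (hgi.const_mul _)]
            refine integral_congr_ae (Eventually.of_forall fun y => ?_)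
            simp only
            by_cases hgy : ((g k y : ℝ) : ℂ) = 0
            · rw [hgy]
              simp
            · have hne : ((x - y : ℝ) : ℂ) ≠ 0 := by
                rw [Ne, Complex.ofReal_eq_zero]
                intro h0
                have h3 := abs_sub_le x y x₀
                rw [h0, abs_zero] at h3
                have h4 := hgv y hgy
                have h5 := hρ1 k
                linarith
              have hne' : (x : ℂ) - (y : ℂ) ≠ 0 := by
                rw [← Complex.ofReal_sub]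
                exact hne
              push_cast
              field_simp
              ring
          rw [h8, norm_mul]
          have h9 : ‖∫ y, ((g k y : ℝ) : ℂ) * (((x₀ - y : ℝ) : ℂ) / ((x - y : ℝ) : ℂ))‖ ≤
              ρ k * r⁻¹ := by
            have h10 : ∫ y, ρ k * r⁻¹ * ‖((g k y : ℝ) : ℂ)‖ = ρ k * r⁻¹ := by
              rw [integral_const_mul, g3, mul_one]
            rw [← h10]
            refine norm_integral_le_of_norm_le (g1.norm.const_mul _)
              (Eventually.of_forall fun y => ?_)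
            by_cases hgy : ((g k y : ℝ) : ℂ) = 0
            · rw [hgy]
              simp
            · have h4 := hgv y hgy
              have h3 := abs_sub_le x y x₀
              rw [abs_sub_comm x y] at h3
              have h5 := hρ1 k
              have h11 : r ≤ |x - y| := by
                rw [abs_sub_comm x y]
                linarith
              rw [norm_mul, mul_comm, norm_div, Complex.norm_real, Complex.norm_real,
                Real.norm_eq_abs, Real.norm_eq_abs, abs_sub_comm x₀ y, div_eq_mul_inv]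
              refine mul_le_mul_of_nonneg_right ?_ (norm_nonneg _)
              exact mul_le_mul h4.le (inv_anti₀ hrpos h11) (by positivity) (hρ0 k).le
          calc ‖∫ y, h k y‖ * ‖∫ y, ((g k y : ℝ) : ℂ) * (((x₀ - y : ℝ) : ℂ) / ((x - y : ℝ) : ℂ))‖
              ≤ ‖∫ y, h k y‖ * (ρ k * r⁻¹) := by gcongr
            _ = r⁻¹ * (‖∫ y, h k y‖ * ρ k) := by ring
            _ ≤ _ := by
                refine mul_le_mul_of_nonneg_left (hρ2 k) (by positivity)
        · rw [hilb_eq hP4]
          congr 1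
          field_simp
          ring
      obtain ⟨e, he⟩ := hmain.choice
      have he0 : Tendsto e atTop (𝓝 0) := by
        rw [tendsto_zero_iff_norm_tendsto_zero]
        refine squeeze_zero' (Eventually.of_forall fun k => norm_nonneg _)
          (he.mono fun k hk => hk.1) ?_
        have := (tendsto_one_div_add_atTop_nhds_zero_nat (𝕜 := ℝ)).const_mul r⁻¹
        rwa [mul_zero] at this
      have hT : Tendsto (fun k : ℕ => hilb (fun x => h k x + -(∫ y, h k y) *
          ((g k x : ℝ) : ℂ)) x) atTop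
          (𝓝 ((Real.pi : ℂ)⁻¹ * (((x : ℂ) - (x₀ : ℂ))⁻¹ * l))) := by
        have h2 : Tendsto (fun k : ℕ => (Real.pi : ℂ)⁻¹ * (((x : ℂ) - (x₀ : ℂ))⁻¹ *
            ((l + -1 * ∫ y, R k y / ((x - y : ℝ) : ℂ)) + e k))) atTop
            (𝓝 ((Real.pi : ℂ)⁻¹ * (((x : ℂ) - (x₀ : ℂ))⁻¹ * ((l + -1 * 0) + 0)))) :=
          (((tendsto_const_nhds.add (hRt.const_mul _)).add he0).const_mul _).const_mul _
        rw [mul_zero, add_zero, add_zero] at h2
        exact h2.congr' (he.mono fun k hk => hk.2.symm)
      have hT2 : Tendsto (fun k : ℕ => ‖hilb (fun x => h k x + -(∫ y, h k y) *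
          ((g k x : ℝ) : ℂ)) x‖ₑ ^ p * (U x : ℝ≥0∞)) atTop
          (𝓝 (‖(Real.pi : ℂ)⁻¹ * (((x : ℂ) - (x₀ : ℂ))⁻¹ * l)‖ₑ ^ p * (U x : ℝ≥0∞))) := by
        refine ENNReal.Tendsto.mul_const ?_ (Or.inr ENNReal.coe_ne_top)
        exact (ENNReal.continuous_rpow_const.tendsto _).comp (hT.enorm)
      rw [hT2.liminf_eq, hilb_eq hl]
      refine le_of_eq ?_
      rw [← quot_mul (by linarith : 0 < p) U hx, ← mul_assoc,
        ← ENNReal.mul_rpow_of_nonneg _ _ (by linarith), ← enorm_mul]
      congr 3
      field_simp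
    · rw [hilb_zero hex, enorm_zero, ENNReal.zero_rpow_of_pos (by linarith), zero_mul]
      exact zero_le

end Pool.Agent.R234.MZ
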