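import Mathlib
import Pool.Agent.R234.MZ.E

/-! The case where the dual weight is integrable. -/

set_option autoImplicit false

open MeasureTheory Filter Topology Set
open scoped ENNReal NNReal

namespace Pool.Agent.R234.MZ

/-- indicator of a compact interval -/
noncomputable def ind (a b : ℝ) : ℝ → ℂ := indicator (Icc a b) fun _ => 1

theorem ind_integrable (a b : ℝ) : Integrable (ind a b) := by
  unfold ind
  rw [integrable_indicator_iff measurableSet_Icc]
  exact integrableOn_const (hs := by simp)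

theorem ind_integral {a b : ℝ} (h : a ≤ b) : ∫ x, ind a b x = ((b - a : ℝ) : ℂ) := by
  unfold ind
  rw [integral_indicator measurableSet_Icc, setIntegral_const, Measure.real, Real.volume_Icc,
    ENNReal.toReal_ofReal (by linarith)]
  simp

theorem ind_of_mem {a b x : ℝ} (h : x ∈ Icc a b) : ind a b x = 1 := indicator_of_mem h _

theorem ind_of_notMem {a b x : ℝ} (h : x ∉ Icc a b) : ind a b x = 0 := indicator_of_notMem h _

theorem norm_ind_le (a b x : ℝ) : ‖ind a b x‖ ≤ 1 := by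
  by_cases h : x ∈ Icc a b
  · rw [ind_of_mem h, norm_one]
  · rw [ind_of_notMem h, norm_zero]
    exact zero_le_one

/-- weights have finite mass on bounded intervals -/
theorem weight_Icc {U : ℝ → ℝ≥0} (hU : IsWeight U) (a b : ℝ) :
    ∫⁻ x in Icc a b, (U x : ℝ≥0∞) ≠ ⊤ := by
  have h1 : IntegrableOn (fun x => (U x : ℝ)) (Icc a b) volume :=
    hU.2.1.integrableOn_isCompact isCompact_Icc
  have h2 := h1.2
  unfold HasFiniteIntegral at h2
  have h3 : ∀ x, ‖(U x : ℝ)‖ₑ = (U x : ℝ≥0∞) := fun x => by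
    rw [Real.enorm_eq_ofReal (U x).coe_nonneg, ENNReal.ofReal_coe_nnreal]
  simp_rw [h3] at h2
  exact h2.ne

/-- bounded functions with bounded support have finite norm -/
theorem wint_bdd {p : ℝ} (hp : 0 < p) {U : ℝ → ℝ≥0} (hU : IsWeight U) {F : ℝ → ℂ} {a b : ℝ}
    {M : ℝ≥0} (h1 : ∀ x ∈ Icc a b, ‖F x‖₊ ≤ M) (h2 : ∀ x, x ∉ Icc a b → F x = 0) :
    wint p U F ≠ ⊤ := by
  have h3 : wint p U F ≤ (M : ℝ≥0∞) ^ p * ∫⁻ x in Icc a b, (U x : ℝ≥0∞) := by
    unfold wint
    rw [← lintegral_const_mul' _ _ (ENNReal.rpow_ne_top_of_nonneg hp.le ENNReal.coe_ne_top),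
      ← lintegral_indicator measurableSet_Icc]
    refine lintegral_mono fun x => ?_
    by_cases hx : x ∈ Icc a b
    · rw [indicator_of_mem hx]
      refine mul_le_mul_left (ENNReal.rpow_le_rpow ?_ hp.le) _
      rw [enorm_eq_nnnorm]
      exact_mod_cast h1 x hx
    · rw [indicator_of_notMem hx, h2 x hx, enorm_zero, ENNReal.zero_rpow_of_pos hp, zero_mul]
  exact ne_top_of_le_ne_top (ENNReal.mul_ne_top
    (ENNReal.rpow_ne_top_of_nonneg hp.le ENNReal.coe_ne_top) (weight_Icc hU a b)) h3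

theorem wint_ind {p : ℝ} (hp : 0 < p) {U : ℝ → ℝ≥0} (hU : IsWeight U) (a b : ℝ) :
    wint p U (ind a b) ≠ ⊤ :=
  wint_bdd hp hU (M := 1) (fun x _ => by
    rw [← NNReal.coe_le_coe, coe_nnnorm, NNReal.coe_one]; exact norm_ind_le a b x)
    (fun x hx => ind_of_notMem hx)

/-- principal values of the indicator exist off the endpoints -/
theorem ind_exists {a b x : ℝ} (ha : x ≠ a) (hb : x ≠ b) : ∃ l, IsPV (ind a b) x l := by
  set r : ℝ := min |x - a| |x - b| with hr
  have hrpos : 0 < r := lt_min (abs_pos.2 (sub_ne_zero.2 ha)) (abs_pos.2 (sub_ne_zero.2 hb))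
  have hra : r ≤ |x - a| := min_le_left _ _
  have hrb : r ≤ |x - b| := min_le_right _ _
  have key : ∀ y, |y - x| < r → (y ∈ Icc a b ↔ x ∈ Icc a b) := by
    intro y hy
    have h1 := abs_lt.1 hy
    have h2 : (a ≤ y ↔ a ≤ x) := by
      constructor
      · intro h
        by_contra hc
        rw [not_le] at hc
        rw [abs_of_neg (by linarith)] at hra
        linarith
      · intro h
        rw [abs_of_nonneg (by linarith)] at hra
        linarith
    have h3 : (y ≤ b ↔ x ≤ b) := by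
      constructor
      · intro h
        by_contra hc
        rw [not_le] at hc
        rw [abs_of_pos (by linarith)] at hrb
        linarith
      · intro h
        rw [abs_of_nonpos (by linarith)] at hrb
        linarith
    rw [mem_Icc, mem_Icc, h2, h3]
  by_cases hx : x ∈ Icc a b
  · exact exists_isPV_of_locally_const (ind_integrable a b) hrpos 1
      (fun y hy => ind_of_mem ((key y hy).2 hx))
  · exact exists_isPV_of_locally_const (ind_integrable a b) hrpos 0
      (fun y hy => ind_of_notMem (fun h => hx ((key y hy).1 h)))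

/-- the odd test function -/
noncomputable def odd1 (y : ℝ) : ℂ := ind 0 1 y + -1 * ind (-1) 0 y

theorem odd1_integrable : Integrable odd1 :=
  (ind_integrable 0 1).add ((ind_integrable (-1) 0).const_mul _)

theorem odd1_integral : ∫ y, odd1 y = 0 := by
  unfold odd1
  rw [integral_add (ind_integrable 0 1) ((ind_integrable (-1) 0).const_mul _), integral_const_mul,
    ind_integral (by norm_num), ind_integral (by norm_num)]
  norm_num

theorem odd1_zero {y : ℝ} (hy : 1 < |y|) : odd1 y = 0 := by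
  unfold odd1
  rw [ind_of_notMem, ind_of_notMem]
  · ring
  · intro h
    rw [mem_Icc] at h
    have : |y| ≤ 1 := abs_le.2 ⟨h.1, by linarith [h.2]⟩
    linarith
  · intro h
    rw [mem_Icc] at h
    have : |y| ≤ 1 := abs_le.2 ⟨by linarith [h.1], h.2⟩
    linarith

theorem norm_odd1 (y : ℝ) : ‖odd1 y‖ ≤ 2 := by
  unfold odd1
  refine (norm_add_le _ _).trans ?_
  rw [norm_mul]
  have h1 := norm_ind_le 0 1 y
  have h2 := norm_ind_le (-1) 0 y
  rw [norm_neg, norm_one]
  linarith

/-- multiplication by bounded powers preserves integrability -/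
theorem mul_odd1_integrable {F : ℝ → ℂ} (hF : Continuous F) : Integrable fun y => F y * odd1 y := by
  have h1 : (fun y => F y * odd1 y) = indicator (Icc (-1) 1) (fun y => F y * odd1 y) := by
    funext y
    by_cases hy : y ∈ Icc (-1 : ℝ) 1
    · rw [indicator_of_mem hy]
    · rw [indicator_of_notMem hy, odd1_zero, mul_zero]
      by_contra hc
      exact hy (abs_le.1 (not_lt.1 hc))
  rw [h1, integrable_indicator_iff measurableSet_Icc]
  refine IntegrableOn.congr_fun (f := fun y => odd1 y * F y) ?_ (fun y _ => mul_comm _ _)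
    measurableSet_Icc
  exact IntegrableOn.mul_continuousOn odd1_integrable.integrableOn hF.continuousOn isCompact_Icc

theorem moment1 : ∫ y : ℝ, ((y : ℂ) - 0) * odd1 y = 1 := by
  have h0 : ∀ a b : ℝ, a ≤ b → Integrable (fun y : ℝ => (y : ℂ) * ind a b y) ∧
      ∫ y : ℝ, (y : ℂ) * ind a b y = (((b ^ 2 - a ^ 2) / 2 : ℝ) : ℂ) := by
    intro a b hab
    have h1 : (fun y : ℝ => (y : ℂ) * ind a b y) = indicator (Icc a b) (fun y : ℝ => (y : ℂ)) := by
      funext y
      by_cases hy : y ∈ Icc a b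
      · rw [indicator_of_mem hy, ind_of_mem hy, mul_one]
      · rw [indicator_of_notMem hy, ind_of_notMem hy, mul_zero]
    rw [h1]
    constructor
    · rw [integrable_indicator_iff measurableSet_Icc]
      exact (by fun_prop : Continuous fun y : ℝ => (y : ℂ)).continuousOn.integrableOn_compact
        isCompact_Icc
    · rw [integral_indicator measurableSet_Icc, integral_Icc_eq_integral_Ioc,
        ← intervalIntegral.integral_of_le hab, intervalIntegral.integral_ofReal, integral_id]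
  obtain ⟨h1, h2⟩ := h0 0 1 (by norm_num)
  obtain ⟨h3, h4⟩ := h0 (-1) 0 (by norm_num)
  have h5 : (fun y : ℝ => ((y : ℂ) - 0) * odd1 y) =
      fun y : ℝ => (y : ℂ) * ind 0 1 y + -1 * ((y : ℂ) * ind (-1) 0 y) := by
    funext y
    unfold odd1
    ring
  rw [h5, integral_add h1 (h3.const_mul _), integral_const_mul, h2, h4]
  norm_num

/-- lower bound for the Hilbert transform of the odd function -/
theorem hilb_odd1 {x : ℝ} (hx : 5 < |x|) :
    (2 * Real.pi * x ^ 2)⁻¹ ≤ ‖hilb odd1 x‖ := by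
  have hr : (0 : ℝ) < |x| - 1 := by linarith
  have hv : ∀ y, |y - x| < |x| - 1 → odd1 y = 0 := by
    intro y hy
    apply odd1_zero
    have h3 := abs_sub_abs_le_abs_sub x y
    rw [abs_sub_comm x y] at h3
    linarith
  obtain ⟨h1, -⟩ := isPV_of_vanish odd1_integrable hr hv
  set m := ∫ y, odd1 y / ((x - y : ℝ) : ℂ) with hm
  have h2 := isPV_mul 0 odd1_integrable h1
  have hi2 : Integrable fun y : ℝ => ((y : ℂ) - 0) * odd1 y := mul_odd1_integrable (by fun_prop)
  have h3 := isPV_mul 0 hi2 h2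
  have hi3 : Integrable fun y : ℝ => ((y : ℂ) - 0) * (((y : ℂ) - 0) * odd1 y) := by
    have := mul_odd1_integrable (F := fun y : ℝ => ((y : ℂ) - 0) * ((y : ℂ) - 0)) (by fun_prop)
    refine this.congr (Eventually.of_forall fun y => ?_)
    simp only
    ring
  obtain ⟨h4, h5⟩ := isPV_of_vanish hi3 hr (fun y hy => by rw [hv y hy]; simp)
  have h6 := tendsto_nhds_unique h3 h4
  rw [moment1, odd1_integral] at h6
  have h7 : ∫ y : ℝ, ‖((y : ℂ) - 0) * (((y : ℂ) - 0) * odd1 y)‖ ≤ 2 := by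
    have hle : ∀ y : ℝ, ‖((y : ℂ) - 0) * (((y : ℂ) - 0) * odd1 y)‖ ≤
        ‖ind 0 1 y‖ + ‖ind (-1) 0 y‖ := by
      intro y
      by_cases hy : 1 < |y|
      · rw [odd1_zero hy]
        simp only [mul_zero, norm_zero]
        positivity
      · rw [not_lt] at hy
        rw [sub_zero, norm_mul, norm_mul, Complex.norm_real, Real.norm_eq_abs]
        have h8 : ‖odd1 y‖ ≤ ‖ind 0 1 y‖ + ‖ind (-1) 0 y‖ := by
          unfold odd1
          refine (norm_add_le _ _).trans ?_
          rw [norm_mul, norm_neg, norm_one, one_mul]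
        have h9 : |y| * (|y| * ‖odd1 y‖) ≤ 1 * (1 * ‖odd1 y‖) := by gcongr
        rw [one_mul, one_mul] at h9
        exact h9.trans h8
    refine (integral_mono hi3.norm ((ind_integrable 0 1).norm.add (ind_integrable (-1) 0).norm)
      hle).trans (le_of_eq ?_)
    have hn : ∀ a b : ℝ, a ≤ b → ∫ y, ‖ind a b y‖ = b - a := by
      intro a b hab
      have : ∀ y, ‖ind a b y‖ = indicator (Icc a b) (fun _ => (1 : ℝ)) y := by
        intro y
        by_cases hy : y ∈ Icc a b
        · rw [indicator_of_mem hy, ind_of_mem hy, norm_one]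
        · rw [indicator_of_notMem hy, ind_of_notMem hy, norm_zero]
      simp_rw [this]
      rw [integral_indicator measurableSet_Icc, setIntegral_const, Measure.real, Real.volume_Icc,
        ENNReal.toReal_ofReal (by linarith)]
      simp
    have h10 := integral_add (ind_integrable 0 1).norm (ind_integrable (-1) 0).norm
    rw [hn 0 1 (by norm_num), hn (-1) 0 (by norm_num)] at h10
    rw [show (2 : ℝ) = 1 - 0 + (0 - -1) by norm_num]
    exact h10
  have h8 : ‖∫ y : ℝ, ((y : ℂ) - 0) * (((y : ℂ) - 0) * odd1 y) / ((x - y : ℝ) : ℂ)‖ ≤ 1 / 2 := by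
    refine h5.trans ?_
    have h9 : (|x| - 1)⁻¹ ≤ 1 / 4 := by
      rw [inv_eq_one_div]
      exact one_div_le_one_div_of_le (by norm_num) (by linarith)
    calc (|x| - 1)⁻¹ * ∫ y : ℝ, ‖((y : ℂ) - 0) * (((y : ℂ) - 0) * odd1 y)‖
        ≤ (1 / 4) * 2 := by
          refine mul_le_mul h9 h7 (integral_nonneg fun y => norm_nonneg _) (by norm_num)
      _ = 1 / 2 := by norm_num
  have hx0 : (x : ℂ) ≠ 0 := by
    intro h0
    rw [Complex.ofReal_eq_zero] at h0
    rw [h0, abs_zero] at hx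
    linarith
  have h9 : 1 / 2 ≤ ‖(x : ℂ) ^ 2 * m‖ := by
    have e1 : (x : ℂ) ^ 2 * m = 1 + ∫ y : ℝ, ((y : ℂ) - 0) * (((y : ℂ) - 0) * odd1 y) /
        ((x - y : ℝ) : ℂ) := by
      rw [← h6]
      ring
    rw [e1]
    have h10 := norm_sub_le (1 + ∫ y : ℝ, ((y : ℂ) - 0) * (((y : ℂ) - 0) * odd1 y) /
        ((x - y : ℝ) : ℂ)) (∫ y : ℝ, ((y : ℂ) - 0) * (((y : ℂ) - 0) * odd1 y) /
        ((x - y : ℝ) : ℂ))
    rw [add_sub_cancel_right, norm_one] at h10
    linarith
  rw [hilb_eq h1, norm_mul, norm_inv, Complex.norm_real, Real.norm_of_nonneg Real.pi_pos.le]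
  rw [norm_mul, norm_pow, Complex.norm_real, Real.norm_eq_abs, sq_abs] at h9
  have hx2 : 0 < x ^ 2 := by
    have : x ≠ 0 := fun h0 => hx0 (by rw [h0]; simp)
    positivity
  rw [mul_inv, mul_inv]
  have h11 : (2 : ℝ)⁻¹ * (x ^ 2)⁻¹ ≤ ‖m‖ := by
    rw [← mul_inv, inv_le_iff_one_le_mul₀ (by positivity)]
    linarith
  calc (2 : ℝ)⁻¹ * Real.pi⁻¹ * (x ^ 2)⁻¹ = Real.pi⁻¹ * (2⁻¹ * (x ^ 2)⁻¹) := by ring
    _ ≤ Real.pi⁻¹ * ‖m‖ := by gcongr

/-- upper bound in the far region -/
theorem far_bound {x : ℝ} (hx : 5 < |x|) :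
    ‖hilb (ind 0 1) x - (Real.pi : ℂ)⁻¹ * ((x : ℂ) - Complex.I)⁻¹‖ ≤ 8 * ‖hilb odd1 x‖ := by
  have hr : (0 : ℝ) < |x| - 1 := by linarith
  have hv : ∀ y, |y - x| < |x| - 1 → ind 0 1 y = 0 := by
    intro y hy
    apply ind_of_notMem
    intro h
    have h3 := abs_sub_abs_le_abs_sub x y
    rw [abs_sub_comm x y] at h3
    have h4 : |y| ≤ 1 := abs_le.2 ⟨by linarith [h.1], h.2⟩
    linarith
  obtain ⟨h1, -⟩ := isPV_of_vanish (ind_integrable 0 1) hr hv
  set n := ∫ y, ind 0 1 y / ((x - y : ℝ) : ℂ) with hn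
  have h2 := isPV_mul Complex.I (ind_integrable 0 1) h1
  have hi : Integrable fun y : ℝ => ((y : ℂ) - Complex.I) * ind 0 1 y := by
    have e1 : (fun y : ℝ => ((y : ℂ) - Complex.I) * ind 0 1 y) =
        indicator (Icc 0 1) fun y : ℝ => ((y : ℂ) - Complex.I) := by
      funext y
      by_cases hy : y ∈ Icc (0 : ℝ) 1
      · rw [indicator_of_mem hy, ind_of_mem hy, mul_one]
      · rw [indicator_of_notMem hy, ind_of_notMem hy, mul_zero]
    rw [e1, integrable_indicator_iff measurableSet_Icc]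
    exact (by fun_prop : Continuous fun y : ℝ => (y : ℂ) - Complex.I).continuousOn.integrableOn_compact
      isCompact_Icc
  obtain ⟨h3, h4⟩ := isPV_of_vanish hi hr (fun y hy => by rw [hv y hy]; simp)
  have h5 := tendsto_nhds_unique h2 h3
  rw [ind_integral (by norm_num)] at h5
  have h6 : ∫ y : ℝ, ‖((y : ℂ) - Complex.I) * ind 0 1 y‖ ≤ 2 := by
    have hle : ∀ y : ℝ, ‖((y : ℂ) - Complex.I) * ind 0 1 y‖ ≤
        indicator (Icc 0 1) (fun _ => (2 : ℝ)) y := by
      intro y
      by_cases hy : y ∈ Icc (0 : ℝ) 1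
      · rw [indicator_of_mem hy, ind_of_mem hy, mul_one]
        refine (norm_sub_le _ _).trans ?_
        rw [Complex.norm_real, Real.norm_eq_abs, Complex.norm_I, abs_of_nonneg hy.1]
        linarith [hy.2]
      · rw [indicator_of_notMem hy, ind_of_notMem hy, mul_zero, norm_zero]
    have hi2 : Integrable (indicator (Icc (0 : ℝ) 1) (fun _ => (2 : ℝ))) := by
      rw [integrable_indicator_iff measurableSet_Icc]
      exact integrableOn_const (hs := by simp)
    refine (integral_mono hi.norm hi2 hle).trans (le_of_eq ?_)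
    rw [integral_indicator measurableSet_Icc, setIntegral_const, Measure.real, Real.volume_Icc]
    simp
  have hxI : (x : ℂ) - Complex.I ≠ 0 := by
    intro h
    have := congrArg Complex.im h
    simp at this
  have h7 : |x| ≤ ‖(x : ℂ) - Complex.I‖ := by
    have := Complex.abs_re_le_norm ((x : ℂ) - Complex.I)
    simpa using this
  have h8 : n - ((x : ℂ) - Complex.I)⁻¹ = ((x : ℂ) - Complex.I)⁻¹ *
      ∫ y : ℝ, ((y : ℂ) - Complex.I) * ind 0 1 y / ((x - y : ℝ) : ℂ) := by
    rw [← h5]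
    field_simp
    push_cast
    ring
  have hx0 : 0 < |x| := by linarith
  rw [hilb_eq h1, ← mul_sub, h8, norm_mul, norm_mul, norm_inv, norm_inv, Complex.norm_real,
    Real.norm_of_nonneg Real.pi_pos.le]
  have h9 : ‖∫ y : ℝ, ((y : ℂ) - Complex.I) * ind 0 1 y / ((x - y : ℝ) : ℂ)‖ ≤ 4 * |x|⁻¹ := by
    refine h4.trans ?_
    have h10 : (|x| - 1)⁻¹ ≤ 2 * |x|⁻¹ := by
      rw [inv_eq_one_div, inv_eq_one_div, mul_one_div, div_le_div_iff₀ hr hx0]
      linarith
    calc (|x| - 1)⁻¹ * ∫ y : ℝ, ‖((y : ℂ) - Complex.I) * ind 0 1 y‖ ≤ (2 * |x|⁻¹) * 2 :=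
          mul_le_mul h10 h6 (integral_nonneg fun y => norm_nonneg _) (by positivity)
      _ = 4 * |x|⁻¹ := by ring
  have h10 : ‖(x : ℂ) - Complex.I‖⁻¹ ≤ |x|⁻¹ := inv_anti₀ hx0 h7
  have h11 := hilb_odd1 hx
  calc Real.pi⁻¹ * (‖(x : ℂ) - Complex.I‖⁻¹ *
        ‖∫ y : ℝ, ((y : ℂ) - Complex.I) * ind 0 1 y / ((x - y : ℝ) : ℂ)‖)
      ≤ Real.pi⁻¹ * (|x|⁻¹ * (4 * |x|⁻¹)) := by gcongr
    _ = 8 * (2 * Real.pi * x ^ 2)⁻¹ := by
        rw [← sq_abs x]
        field_simp
        norm_num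
    _ ≤ _ := by gcongr

end Pool.Agent.R234.MZ
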