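import Mathlib
import Pool.Agent.R234.MZ.F

/-! The case where the dual weight is integrable, conclusion. -/

set_option autoImplicit false

open MeasureTheory Filter Topology Set
open scoped ENNReal NNReal

namespace Pool.Agent.R234.MZ

/-- the correction term -/
noncomputable def corr (x : ℝ) : ℂ := hilb (ind 0 1) x - (Real.pi : ℂ)⁻¹ * ((x : ℂ) - Complex.I)⁻¹

theorem corr_finite {p : ℝ} (hp : 1 < p) {U : ℝ → ℝ≥0} (hU : IsWeight U)
    (hA : Admissible p U) : wint p U corr ≠ ⊤ := by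
  obtain ⟨C, hC⟩ := hA
  have hp0 : 0 < p := by linarith
  -- the far test function
  have h1 : wint p U (hilb odd1) ≠ ⊤ := by
    refine ne_top_of_le_ne_top ?_ (hC odd1 odd1_integrable odd1_integral)
    refine ENNReal.mul_ne_top ENNReal.coe_ne_top (wint_bdd hp0 hU (a := -1) (b := 1) (M := 2) ?_ ?_)
    · intro x _
      rw [← NNReal.coe_le_coe, coe_nnnorm]
      exact norm_odd1 x
    · intro x hx
      apply odd1_zero
      by_contra hc
      exact hx (abs_le.1 (not_lt.1 hc))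
  -- the near test function
  set f₂ : ℝ → ℂ := fun y => ind 0 1 y + -1 * ind 6 7 y with hf₂
  have hf₂i : Integrable f₂ := (ind_integrable 0 1).add ((ind_integrable 6 7).const_mul _)
  have h2 : wint p U (hilb f₂) ≠ ⊤ := by
    refine ne_top_of_le_ne_top ?_ (hC f₂ hf₂i ?_)
    · refine ENNReal.mul_ne_top ENNReal.coe_ne_top ?_
      refine ne_top_of_le_ne_top ?_ (wint_add hp.le hU.1 (ind 0 1)
        ((ind_integrable 6 7).const_mul (-1)).1.aemeasurable)
      rw [wint_const_mul hp0.le]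
      refine ENNReal.mul_ne_top (ENNReal.rpow_ne_top_of_nonneg (by linarith) (by norm_num))
        (ENNReal.add_ne_top.2 ⟨wint_ind hp0 hU 0 1, ENNReal.mul_ne_top
          (ENNReal.rpow_ne_top_of_nonneg hp0.le enorm_ne_top) (wint_ind hp0 hU 6 7)⟩)
    · rw [hf₂, integral_add (ind_integrable 0 1) ((ind_integrable 6 7).const_mul _),
        integral_const_mul, ind_integral (by norm_num), ind_integral (by norm_num)]
      norm_num
  have hpi : (Real.pi)⁻¹ ≤ 1 := inv_le_one_of_one_le₀ (by linarith [Real.pi_gt_three])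
  -- pointwise bound
  have hpt : ∀ᵐ x : ℝ, ‖corr x‖ ≤ 8 * ‖hilb odd1 x‖ + (‖hilb f₂ x‖ +
      indicator (Icc (-5) 5) (fun _ => (2 : ℝ)) x) := by
    have hne : ∀ a : ℝ, ∀ᵐ x : ℝ, x ≠ a := fun a => by
      rw [ae_iff]
      simp
    filter_upwards [hne 0, hne 1] with x hx0 hx1
    by_cases hx : 5 < |x|
    · have := far_bound hx
      have h3 : 0 ≤ indicator (Icc (-5) 5) (fun _ => (2 : ℝ)) x :=
        indicator_nonneg (fun _ _ => by norm_num) x
      unfold corr
      linarith [norm_nonneg (hilb f₂ x)]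
    · have hx5 := abs_le.1 (not_lt.1 hx)
      rw [indicator_of_mem (by exact hx5)]
      obtain ⟨l, hl⟩ := ind_exists hx0 hx1
      have hv : ∀ y, |y - x| < 1 → ind 6 7 y = 0 := by
        intro y hy
        apply ind_of_notMem
        intro h
        have := abs_lt.1 hy
        linarith [h.1, hx5.2]
      obtain ⟨h3, h4⟩ := isPV_of_vanish (ind_integrable 6 7) zero_lt_one hv
      have hn : ∫ y, ‖ind 6 7 y‖ ≤ 1 := by
        have : ∀ y, ‖ind 6 7 y‖ = indicator (Icc 6 7) (fun _ => (1 : ℝ)) y := by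
          intro y
          by_cases hy : y ∈ Icc (6 : ℝ) 7
          · rw [indicator_of_mem hy, ind_of_mem hy, norm_one]
          · rw [indicator_of_notMem hy, ind_of_notMem hy, norm_zero]
        simp_rw [this]
        rw [integral_indicator measurableSet_Icc, setIntegral_const, Measure.real, Real.volume_Icc]
        norm_num
      have h5 := hl.add (ind_integrable 0 1) ((ind_integrable 6 7).const_mul (-1))
        (h3.const_mul (-1))
      have e1 : hilb (ind 0 1) x = hilb f₂ x + (Real.pi : ℂ)⁻¹ *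
          ∫ y, ind 6 7 y / ((x - y : ℝ) : ℂ) := by
        rw [hilb_eq hl, hilb_eq h5]
        ring
      have h6 : ‖(Real.pi : ℂ)⁻¹ * ∫ y, ind 6 7 y / ((x - y : ℝ) : ℂ)‖ ≤ 1 := by
        rw [norm_mul, norm_inv, Complex.norm_real, Real.norm_of_nonneg Real.pi_pos.le]
        have h7 : ‖∫ y, ind 6 7 y / ((x - y : ℝ) : ℂ)‖ ≤ 1 := by
          refine h4.trans ?_
          rw [inv_one, one_mul]
          exact hn
        calc Real.pi⁻¹ * ‖∫ y, ind 6 7 y / ((x - y : ℝ) : ℂ)‖ ≤ 1 * 1 :=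
              mul_le_mul hpi h7 (norm_nonneg _) zero_le_one
          _ = 1 := one_mul 1
      have h7 : ‖(Real.pi : ℂ)⁻¹ * ((x : ℂ) - Complex.I)⁻¹‖ ≤ 1 := by
        rw [norm_mul, norm_inv, norm_inv, Complex.norm_real, Real.norm_of_nonneg Real.pi_pos.le]
        have h8 : 1 ≤ ‖(x : ℂ) - Complex.I‖ := by
          have := Complex.abs_im_le_norm ((x : ℂ) - Complex.I)
          simpa using this
        calc Real.pi⁻¹ * ‖(x : ℂ) - Complex.I‖⁻¹ ≤ 1 * 1 :=
              mul_le_mul hpi (inv_le_one_of_one_le₀ h8) (by positivity) zero_le_one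
          _ = 1 := one_mul 1
      unfold corr
      rw [e1]
      have h8 := norm_sub_le (hilb f₂ x + (Real.pi : ℂ)⁻¹ *
          ∫ y, ind 6 7 y / ((x - y : ℝ) : ℂ)) ((Real.pi : ℂ)⁻¹ * ((x : ℂ) - Complex.I)⁻¹)
      have h9 := norm_add_le (hilb f₂ x) ((Real.pi : ℂ)⁻¹ *
          ∫ y, ind 6 7 y / ((x - y : ℝ) : ℂ))
      linarith [norm_nonneg (hilb odd1 x)]
  -- conclusion
  set I5 : ℝ → ℂ := fun x => 2 * ind (-5) 5 x with hI5
  have hI5i : Integrable I5 := (ind_integrable (-5) 5).const_mul 2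
  have hI5f : wint p U I5 ≠ ⊤ := by
    rw [hI5, wint_const_mul hp0.le]
    exact ENNReal.mul_ne_top (ENNReal.rpow_ne_top_of_nonneg hp0.le enorm_ne_top)
      (wint_ind hp0 hU _ _)
  set A1 : ℝ → ℂ := fun x => ((8 * ‖hilb odd1 x‖ : ℝ) : ℂ) with hA1
  set A2 : ℝ → ℂ := fun x => ((‖hilb f₂ x‖ : ℝ) : ℂ) with hA2
  set A3 : ℝ → ℂ := fun x => ((‖I5 x‖ : ℝ) : ℂ) with hA3
  have hm2 : Measurable A2 := Complex.measurable_ofReal.comp (measurable_hilb hf₂i).norm
  have hm3 : AEMeasurable A3 volume :=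
    Complex.measurable_ofReal.comp_aemeasurable hI5i.1.aemeasurable.norm
  have hw2 : wint p U A2 = wint p U (hilb f₂) := by
    unfold wint
    refine lintegral_congr fun x => ?_
    rw [hA2, ← ofReal_norm, Complex.norm_real, norm_norm, ofReal_norm]
  have hw3 : wint p U A3 = wint p U I5 := by
    unfold wint
    refine lintegral_congr fun x => ?_
    rw [hA3, ← ofReal_norm, Complex.norm_real, norm_norm, ofReal_norm]
  have hw1 : wint p U A1 = ‖(8 : ℂ)‖ₑ ^ p * wint p U (hilb odd1) := by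
    rw [← wint_const_mul hp0.le]
    unfold wint
    refine lintegral_congr fun x => ?_
    rw [hA1, ← ofReal_norm, Complex.norm_real, norm_mul, norm_norm, ← ofReal_norm, norm_mul]
    norm_num
  have h23 : wint p U (fun x => A2 x + A3 x) ≠ ⊤ := by
    refine ne_top_of_le_ne_top ?_ (wint_add hp.le hU.1 A2 hm3)
    rw [hw2, hw3]
    exact ENNReal.mul_ne_top (ENNReal.rpow_ne_top_of_nonneg (by linarith) (by norm_num))
      (ENNReal.add_ne_top.2 ⟨h2, hI5f⟩)
  have h123 : wint p U (fun x => A1 x + (A2 x + A3 x)) ≠ ⊤ := by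
    refine ne_top_of_le_ne_top ?_ (wint_add hp.le hU.1 A1 (hm2.aemeasurable.add hm3))
    rw [hw1]
    exact ENNReal.mul_ne_top (ENNReal.rpow_ne_top_of_nonneg (by linarith) (by norm_num))
      (ENNReal.add_ne_top.2 ⟨ENNReal.mul_ne_top
        (ENNReal.rpow_ne_top_of_nonneg hp0.le enorm_ne_top) h1, h23⟩)
  refine ne_top_of_le_ne_top h123 ?_
  unfold wint
  refine lintegral_mono_ae ?_
  filter_upwards [hpt] with x hx
  refine mul_le_mul_left (ENNReal.rpow_le_rpow ?_ hp0.le) _
  rw [← ofReal_norm, ← ofReal_norm]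
  refine ENNReal.ofReal_le_ofReal (hx.trans (le_of_eq ?_))
  have e3 : A1 x + (A2 x + A3 x) = ((8 * ‖hilb odd1 x‖ + (‖hilb f₂ x‖ + ‖I5 x‖) : ℝ) : ℂ) := by
    simp only [hA1, hA2, hA3]
    push_cast
    ring
  rw [e3, Complex.norm_real, Real.norm_of_nonneg (by positivity)]
  congr 2
  simp only [hI5]
  by_cases hx5 : x ∈ Icc (-5 : ℝ) 5
  · rw [indicator_of_mem hx5, ind_of_mem hx5]
    norm_num
  · rw [indicator_of_notMem hx5, ind_of_notMem hx5]
    norm_num

/-- Hölder's inequality -/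
theorem holder {p : ℝ} (hp : 1 < p) {U : ℝ → ℝ≥0} (hU : Measurable U)
    (hfin : ∫⁻ x, dual p U x ≠ ⊤) {h : ℝ → ℂ} (hh : Integrable h) :
    ‖∫ x, h x‖ₑ ^ p ≤ (∫⁻ x, dual p U x) ^ (p - 1) * wint p U h := by
  have hp0 : 0 < p := by linarith
  have hp1 : 0 < p - 1 := by linarith
  have hq : p.HolderConjugate (p / (p - 1)) := by
    rw [Real.holderConjugate_iff]
    refine ⟨hp, ?_⟩
    field_simp
    ring
  have h1 : ‖∫ x, h x‖ₑ ≤ ∫⁻ x, ‖h x‖ₑ := enorm_integral_le_lintegral_enorm _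
  have hae : ∀ᵐ x, dual p U x < ⊤ := ae_lt_top (measurable_dual p hU) hfin
  have h2 : ∫⁻ x, ‖h x‖ₑ = ∫⁻ x, (‖h x‖ₑ * (U x : ℝ≥0∞) ^ (1 / p)) * (U x : ℝ≥0∞) ^ (-(1 / p)) := by
    refine lintegral_congr_ae ?_
    filter_upwards [hae] with x hx
    have h3 : (U x : ℝ≥0∞) ≠ 0 := by
      intro h0
      unfold dual at hx
      rw [h0, ENNReal.zero_rpow_of_neg (by rw [neg_lt_zero]; positivity)] at hx
      exact lt_irrefl _ hx
    rw [mul_assoc, ← ENNReal.rpow_add _ _ h3 ENNReal.coe_ne_top, add_neg_cancel, ENNReal.rpow_zero,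
      mul_one]
  have hm : AEMeasurable (fun x => ‖h x‖ₑ * (U x : ℝ≥0∞) ^ (1 / p)) volume :=
    hh.1.enorm.mul (hU.coe_nnreal_ennreal.pow_const _).aemeasurable
  have hm2 : AEMeasurable (fun x => (U x : ℝ≥0∞) ^ (-(1 / p))) volume :=
    (hU.coe_nnreal_ennreal.pow_const _).aemeasurable
  have h3 := ENNReal.lintegral_mul_le_Lp_mul_Lq volume hq hm hm2
  have e1 : ∫⁻ x, (‖h x‖ₑ * (U x : ℝ≥0∞) ^ (1 / p)) ^ p = wint p U h := by
    unfold wint
    refine lintegral_congr fun x => ?_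
    rw [ENNReal.mul_rpow_of_nonneg _ _ hp0.le, ← ENNReal.rpow_mul, one_div_mul_cancel hp0.ne',
      ENNReal.rpow_one]
  have e2 : ∫⁻ x, ((U x : ℝ≥0∞) ^ (-(1 / p))) ^ (p / (p - 1)) = ∫⁻ x, dual p U x := by
    refine lintegral_congr fun x => ?_
    unfold dual
    rw [← ENNReal.rpow_mul]
    congr 1
    field_simp
  have h4 : ‖∫ x, h x‖ₑ ≤ wint p U h ^ (1 / p) * (∫⁻ x, dual p U x) ^ (1 / (p / (p - 1))) := by
    refine h1.trans ?_
    rw [h2]
    refine le_trans ?_ (h3.trans (le_of_eq ?_))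
    · exact le_of_eq rfl
    · rw [e1, e2]
  calc ‖∫ x, h x‖ₑ ^ p ≤ (wint p U h ^ (1 / p) * (∫⁻ x, dual p U x) ^ (1 / (p / (p - 1)))) ^ p :=
        ENNReal.rpow_le_rpow h4 hp0.le
    _ = _ := by
        rw [ENNReal.mul_rpow_of_nonneg _ _ hp0.le, ← ENNReal.rpow_mul, one_div_mul_cancel hp0.ne',
          ENNReal.rpow_one, ← ENNReal.rpow_mul, mul_comm]
        congr 2
        field_simp

theorem case_integrable {p : ℝ} (hp : 1 < p) {U : ℝ → ℝ≥0} (hU : IsWeight U)
    (hA : Admissible p U) (hfin : ∫⁻ x, dual p U x ≠ ⊤) :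
    Unrestricted p (quot p U Complex.I) := by
  have hD := corr_finite hp hU hA
  obtain ⟨C, hC⟩ := hA
  have hp0 : 0 < p := by linarith
  set S := (∫⁻ x, dual p U x) ^ (p - 1) with hS
  have hSf : S ≠ ⊤ := ENNReal.rpow_ne_top_of_nonneg (by linarith) hfin
  have h2p : (2 : ℝ≥0∞) ^ (p - 1) ≠ ⊤ := ENNReal.rpow_ne_top_of_nonneg (by linarith) (by norm_num)
  have hB := wint_ind hp0 hU 0 1
  set K : ℝ≥0∞ := 2 ^ (p - 1) * (C * (2 ^ (p - 1) * (1 + S * wint p U (ind 0 1))) +
    S * wint p U corr) with hK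
  have hKf : K ≠ ⊤ := by
    rw [hK]
    refine ENNReal.mul_ne_top h2p (ENNReal.add_ne_top.2 ⟨?_, ENNReal.mul_ne_top hSf hD⟩)
    refine ENNReal.mul_ne_top ENNReal.coe_ne_top (ENNReal.mul_ne_top h2p
      (ENNReal.add_ne_top.2 ⟨ENNReal.one_ne_top, ENNReal.mul_ne_top hSf hB⟩))
  refine ⟨K.toNNReal, fun f hf => ?_⟩
  rw [ENNReal.coe_toNNReal hKf]
  have hyI : ∀ y : ℝ, (y : ℂ) - Complex.I ≠ 0 := by
    intro y h
    have := congrArg Complex.im h
    simp at this
  have hyn : ∀ y : ℝ, 1 ≤ ‖(y : ℂ) - Complex.I‖ := by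
    intro y
    have := Complex.abs_im_le_norm ((y : ℂ) - Complex.I)
    simpa using this
  set h : ℝ → ℂ := fun y => f y / ((y : ℂ) - Complex.I) with hh
  have hhi : Integrable h := by
    refine Integrable.mono' hf.norm ?_ (Eventually.of_forall fun y => ?_)
    · refine AEMeasurable.aestronglyMeasurable ?_
      exact hf.1.aemeasurable.div
        (by fun_prop : Measurable fun y : ℝ => (y : ℂ) - Complex.I).aemeasurable
    · rw [hh]
      simp only
      rw [norm_div]
      exact div_le_self (norm_nonneg _) (hyn y)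
  have hmul : (fun y : ℝ => ((y : ℂ) - Complex.I) * h y) = f := by
    funext y
    rw [hh]
    simp only
    rw [mul_div_cancel₀ _ (hyI y)]
  have hwf : wint p U h = wint p (quot p U Complex.I) f := by
    rw [← wint_mul hp0 U Complex.I h, hmul]
  set c := ∫ y, h y with hc
  have hcb : ‖c‖ₑ ^ p ≤ S * wint p U h := holder hp hU.1 hfin hhi
  set u : ℝ → ℂ := fun y => h y + -c * ind 0 1 y with hu
  have hui : Integrable u := hhi.add ((ind_integrable 0 1).const_mul _)
  have hu0 : ∫ y, u y = 0 := by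
    rw [hu, integral_add hhi ((ind_integrable 0 1).const_mul _), integral_const_mul,
      ind_integral (by norm_num), ← hc]
    norm_num
  have h1 := hC u hui hu0
  have h2 : wint p U u ≤ 2 ^ (p - 1) * (wint p U h + ‖c‖ₑ ^ p * wint p U (ind 0 1)) := by
    refine (wint_add hp.le hU.1 h ((ind_integrable 0 1).const_mul (-c)).1.aemeasurable).trans ?_
    rw [wint_const_mul hp0.le, enorm_neg]
  -- pointwise
  have hpt : ∀ᵐ x : ℝ, ‖hilb f x‖ₑ ≤ ‖((x : ℂ) - Complex.I) * (hilb u x + c * corr x)‖ₑ := by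
    have hne : ∀ a : ℝ, ∀ᵐ x : ℝ, x ≠ a := fun a => by
      rw [ae_iff]
      simp
    filter_upwards [hne 0, hne 1] with x hx0 hx1
    by_cases hex : ∃ l, IsPV f x l
    · obtain ⟨l, hl⟩ := hex
      obtain ⟨n, hn⟩ := ind_exists hx0 hx1
      have hxI : (x : ℂ) ≠ Complex.I := fun h0 => hyI x (by rw [h0, sub_self])
      have h3 : IsPV (fun y : ℝ => ((y : ℂ) - Complex.I) * h y) x l := by
        rw [hmul]
        exact hl
      have h4 := isPV_mul_iff Complex.I hhi (by rw [hmul]; exact hf) hxI h3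
      have h5 := h4.add hhi ((ind_integrable 0 1).const_mul (-c)) (hn.const_mul (-c))
      have h6 : hilb f x = ((x : ℂ) - Complex.I) * (hilb u x + c * corr x) := by
        unfold corr
        rw [hilb_eq hl, hilb_eq h5, hilb_eq hn, ← hc]
        have := hyI x
        field_simp
        ring
      rw [h6]
    · rw [hilb_zero hex, enorm_zero]
      exact zero_le
  calc wint p (quot p U Complex.I) (hilb f)
      ≤ wint p (quot p U Complex.I) (fun x => ((x : ℂ) - Complex.I) * (hilb u x + c * corr x)) := by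
        unfold wint
        refine lintegral_mono_ae ?_
        filter_upwards [hpt] with x hx
        exact mul_le_mul_left (ENNReal.rpow_le_rpow hx hp0.le) _
    _ = wint p U (fun x => hilb u x + c * corr x) := wint_mul hp0 U Complex.I _
    _ = wint p U (fun x => c * corr x + hilb u x) := by simp_rw [add_comm]
    _ ≤ 2 ^ (p - 1) * (wint p U (fun x => c * corr x) + wint p U (hilb u)) :=
        wint_add hp.le hU.1 _ (measurable_hilb hui).aemeasurable
    _ ≤ 2 ^ (p - 1) * (S * wint p U h * wint p U corr +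
        C * (2 ^ (p - 1) * (wint p U h + S * wint p U h * wint p U (ind 0 1)))) := by
        rw [wint_const_mul hp0.le]
        gcongr
        refine h1.trans (mul_le_mul_right (h2.trans ?_) _)
        gcongr
    _ = K * wint p (quot p U Complex.I) f := by
        rw [← hwf, hK]
        ring

end Pool.Agent.R234.MZ
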