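import Mathlib
import Pool.Agent.R234.MZ.G

/-! Sufficiency, and the Muckenhoupt condition. -/

set_option autoImplicit false

open MeasureTheory Filter Topology Set
open scoped ENNReal NNReal

namespace Pool.Agent.R234.MZ

/-- from the unrestricted inequality for the quotient to the restricted one -/
theorem sufficient {p : ℝ} (hp : 1 < p) {U : ℝ → ℝ≥0} (hU : IsWeight U) (ζ : ℂ)
    (hA : Unrestricted p (quot p U ζ)) : Admissible p U := by
  obtain ⟨C, hC⟩ := hA
  have hp0 : 0 < p := by linarith
  refine ⟨C * 2 ^ (p - 1), fun f hf hf0 => ?_⟩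
  have h2p : (2 : ℝ≥0∞) ^ (p - 1) ≠ ⊤ := ENNReal.rpow_ne_top_of_nonneg (by linarith) (by norm_num)
  set B : ℕ → Set ℝ := fun k => Icc (-(k : ℝ)) k with hB
  have hBm : ∀ k, MeasurableSet (B k) := fun k => measurableSet_Icc
  set c : ℕ → ℂ := fun k => ∫ y in B k, f y with hc
  have hc0 : Tendsto c atTop (𝓝 0) := by
    have h1 : Tendsto (fun k => ∫ y, indicator (B k) f y) atTop (𝓝 (∫ y, f y)) := by
      refine tendsto_integral_of_dominated_convergence (fun y => ‖f y‖)
        (fun k => (hf.indicator (hBm k)).1) hf.norm (fun k => Eventually.of_forall fun y =>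
        norm_indicator_le_norm_self _ _) (Eventually.of_forall fun y => ?_)
      refine tendsto_const_nhds.congr' ?_
      filter_upwards [eventually_ge_atTop ⌈|y|⌉₊] with k hk
      have h2 : |y| ≤ k := (Nat.le_ceil _).trans (by exact_mod_cast hk)
      rw [indicator_of_mem (by exact abs_le.1 h2)]
    rw [hf0] at h1
    refine h1.congr fun k => ?_
    rw [hc, integral_indicator (hBm k)]
  set u : ℕ → ℝ → ℂ := fun k y => indicator (B k) f y + -c k * ind 0 1 y with hu
  have hui : ∀ k, Integrable (u k) := fun k =>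
    (hf.indicator (hBm k)).add ((ind_integrable 0 1).const_mul _)
  have hu0 : ∀ k, ∫ y, u k y = 0 := by
    intro k
    rw [hu]
    simp only
    rw [integral_add (hf.indicator (hBm k)) ((ind_integrable 0 1).const_mul _),
      integral_const_mul, ind_integral (by norm_num), integral_indicator (hBm k)]
    simp [hc]
  have husupp : ∀ (k : ℕ) (y : ℝ), y ∉ Icc (-((k : ℝ) + 1)) ((k : ℝ) + 1) → u k y = 0 := by
    intro k y hy
    simp only [hu]
    rw [indicator_of_notMem, ind_of_notMem]
    · ring
    · intro h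
      apply hy
      exact ⟨by linarith [h.1, (Nat.cast_nonneg k : (0 : ℝ) ≤ k)],
        by linarith [h.2, (Nat.cast_nonneg k : (0 : ℝ) ≤ k)]⟩
    · intro h
      apply hy
      exact ⟨by linarith [h.1], by linarith [h.2]⟩
  have hFi : ∀ k, Integrable fun y : ℝ => ((y : ℂ) - ζ) * u k y := by
    intro k
    have h1 : (fun y : ℝ => ((y : ℂ) - ζ) * u k y) =
        indicator (Icc (-((k : ℝ) + 1)) ((k : ℝ) + 1)) (fun y : ℝ => ((y : ℂ) - ζ) * u k y) := by
      funext y
      by_cases hy : y ∈ Icc (-((k : ℝ) + 1)) ((k : ℝ) + 1)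
      · rw [indicator_of_mem hy]
      · rw [indicator_of_notMem hy, husupp k y hy, mul_zero]
    rw [h1, integrable_indicator_iff measurableSet_Icc]
    refine IntegrableOn.congr_fun (f := fun y : ℝ => u k y * ((y : ℂ) - ζ)) ?_
      (fun y _ => mul_comm _ _) measurableSet_Icc
    exact IntegrableOn.mul_continuousOn (hui k).integrableOn
      (by fun_prop : Continuous fun y : ℝ => (y : ℂ) - ζ).continuousOn isCompact_Icc
  have hmain : ∀ k, wint p U (hilb (u k)) ≤ C * wint p U (u k) := by
    intro k
    have h1 := hC _ (hFi k)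
    rw [wint_mul hp0 U ζ (u k)] at h1
    refine le_trans ?_ h1
    rw [← wint_mul hp0 U ζ (hilb (u k))]
    unfold wint
    refine lintegral_mono_ae (Eventually.of_forall fun x => ?_)
    refine mul_le_mul_left (ENNReal.rpow_le_rpow ?_ hp0.le) _
    simp only
    by_cases hex : ∃ l, IsPV (u k) x l
    · obtain ⟨l, hl⟩ := hex
      have h2 := isPV_mul ζ (hui k) hl
      rw [hu0 k, sub_zero] at h2
      rw [hilb_eq hl, hilb_eq h2]
      refine le_of_eq ?_
      congr 1
      ring
    · rw [hilb_zero hex, mul_zero, enorm_zero]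
      exact zero_le
  have hbd : ∀ k, wint p U (hilb (u k)) ≤ C * (2 ^ (p - 1) * (wint p U f +
      ‖c k‖ₑ ^ p * wint p U (ind 0 1))) := by
    intro k
    refine (hmain k).trans (mul_le_mul_right ?_ _)
    refine (wint_add hp.le hU.1 _ ((ind_integrable 0 1).const_mul (-c k)).1.aemeasurable).trans ?_
    rw [wint_const_mul hp0.le, enorm_neg]
    refine mul_le_mul_right (add_le_add_left ?_ _) _
    unfold wint
    refine lintegral_mono fun x => ?_
    exact mul_le_mul_left (ENNReal.rpow_le_rpow (enorm_indicator_le_enorm_self _ _) hp0.le) _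
  refine fatou (G := fun k x => ‖hilb (u k) x‖ₑ ^ p * (U x : ℝ≥0∞))
    (fun k => ((measurable_hilb (hui k)).enorm.pow_const p).mul hU.1.coe_nnreal_ennreal)
    hbd ?_ ?_
  · have hc1 : Tendsto (fun k => ‖c k‖ₑ ^ p) atTop (𝓝 0) := by
      have h1 := (ENNReal.continuous_rpow_const (y := p)).tendsto (‖(0 : ℂ)‖ₑ) |>.comp hc0.enorm
      rwa [enorm_zero, ENNReal.zero_rpow_of_pos hp0] at h1
    have h1 : Tendsto (fun k : ℕ => (C : ℝ≥0∞) * (2 ^ (p - 1) *
        (wint p U f + ‖c k‖ₑ ^ p * wint p U (ind 0 1)))) atTop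
        (𝓝 ((C : ℝ≥0∞) * (2 ^ (p - 1) * (wint p U f + 0 * wint p U (ind 0 1))))) := by
      refine ENNReal.Tendsto.const_mul (ENNReal.Tendsto.const_mul
        (tendsto_const_nhds.add (ENNReal.Tendsto.mul_const hc1 (Or.inr (wint_ind hp0 hU 0 1))))
        (Or.inr h2p)) (Or.inr ENNReal.coe_ne_top)
    rw [zero_mul, add_zero] at h1
    convert h1 using 2
    rw [ENNReal.coe_mul, ENNReal.coe_rpow_of_nonneg _ (by linarith), mul_assoc]
    norm_cast
  · have hne : ∀ a : ℝ, ∀ᵐ x : ℝ, x ≠ a := fun a => by
      rw [ae_iff]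
      simp
    filter_upwards [hne 0, hne 1] with x hx0 hx1
    by_cases hex : ∃ l, IsPV f x l
    · obtain ⟨l, hl⟩ := hex
      obtain ⟨n, hn⟩ := ind_exists hx0 hx1
      set R : ℕ → ℝ → ℂ := fun k => indicator (B k)ᶜ f with hR
      have hRi : ∀ k, Integrable (R k) := fun k => hf.indicator (hBm k).compl
      have hRv : ∀ᶠ k : ℕ in atTop, IsPV (R k) x (∫ y, R k y / ((x - y : ℝ) : ℂ)) ∧
          ‖∫ y, R k y / ((x - y : ℝ) : ℂ)‖ ≤ ∫ y, ‖R k y‖ := by
        filter_upwards [eventually_ge_atTop (⌈|x|⌉₊ + 1)] with k hk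
        have hk' : |x| + 1 ≤ k := by
          have h1 : |x| ≤ (⌈|x|⌉₊ : ℝ) := Nat.le_ceil _
          have h2 : ((⌈|x|⌉₊ + 1 : ℕ) : ℝ) ≤ k := by exact_mod_cast hk
          push_cast at h2
          linarith
        have h3 := isPV_of_vanish (hRi k) (x := x) zero_lt_one (fun y hy => by
          simp only [hR]
          rw [indicator_of_notMem]
          rw [notMem_compl_iff]
          apply abs_le.1
          have h4 := abs_add_le (y - x) x
          rw [sub_add_cancel] at h4
          linarith)
        rw [inv_one, one_mul] at h3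
        exact h3
      have hR0 : Tendsto (fun k => ∫ y, ‖R k y‖) atTop (𝓝 0) := by
        have h1 : Tendsto (fun k => ∫ y, ‖R k y‖) atTop (𝓝 (∫ _y : ℝ, (0 : ℝ))) := by
          refine tendsto_integral_of_dominated_convergence (fun y => ‖f y‖)
            (fun k => (hRi k).1.norm) hf.norm (fun k => Eventually.of_forall fun y => ?_)
            (Eventually.of_forall fun y => ?_)
          · rw [norm_norm]
            exact norm_indicator_le_norm_self _ _
          · refine tendsto_const_nhds.congr' ?_
            filter_upwards [eventually_ge_atTop ⌈|y|⌉₊] with k hk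
            have h2 : |y| ≤ k := (Nat.le_ceil _).trans (by exact_mod_cast hk)
            simp only [hR]
            rw [indicator_of_notMem (by rw [notMem_compl_iff]; exact abs_le.1 h2), norm_zero]
        simpa using h1
      have hRt : Tendsto (fun k => ∫ y, R k y / ((x - y : ℝ) : ℂ)) atTop (𝓝 0) := by
        rw [tendsto_zero_iff_norm_tendsto_zero]
        exact squeeze_zero' (Eventually.of_forall fun k => norm_nonneg _)
          (hRv.mono fun k hk => hk.2) hR0
      have hev : ∀ᶠ k : ℕ in atTop, hilb (u k) x = (Real.pi : ℂ)⁻¹ *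
          ((l + -1 * ∫ y, R k y / ((x - y : ℝ) : ℂ)) + -c k * n) := by
        filter_upwards [hRv] with k hk
        have h6 := hl.add hf ((hRi k).const_mul (-1)) (hk.1.const_mul (-1))
        have h7 : (fun y => f y + -1 * R k y) = indicator (B k) f := by
          funext y
          simp only [hR]
          by_cases hy : y ∈ B k
          · rw [indicator_of_mem hy, indicator_of_notMem (by rw [notMem_compl_iff]; exact hy)]
            ring
          · rw [indicator_of_notMem hy, indicator_of_mem (by exact hy)]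
            ring
        rw [h7] at h6
        exact hilb_eq (h6.add (hf.indicator (hBm k)) ((ind_integrable 0 1).const_mul _)
          (hn.const_mul (-c k)))
      have hT : Tendsto (fun k => hilb (u k) x) atTop (𝓝 (hilb f x)) := by
        rw [hilb_eq hl]
        have h2 : Tendsto (fun k : ℕ => (Real.pi : ℂ)⁻¹ *
            ((l + -1 * ∫ y, R k y / ((x - y : ℝ) : ℂ)) + -c k * n)) atTop
            (𝓝 ((Real.pi : ℂ)⁻¹ * ((l + -1 * 0) + -0 * n))) :=
          ((tendsto_const_nhds.add (hRt.const_mul _)).add (hc0.neg.mul_const _)).const_mul _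
        rw [mul_zero, add_zero, neg_zero, zero_mul, add_zero] at h2
        exact h2.congr' (hev.mono fun k hk => hk.symm)
      have hT2 : Tendsto (fun k : ℕ => ‖hilb (u k) x‖ₑ ^ p * (U x : ℝ≥0∞)) atTop
          (𝓝 (‖hilb f x‖ₑ ^ p * (U x : ℝ≥0∞))) := by
        refine ENNReal.Tendsto.mul_const ?_ (Or.inr ENNReal.coe_ne_top)
        exact (ENNReal.continuous_rpow_const.tendsto _).comp (hT.enorm)
      exact le_of_eq hT2.liminf_eq.symm
    · rw [hilb_zero hex, enorm_zero, ENNReal.zero_rpow_of_pos hp0, zero_mul]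
      exact zero_le

/-- lower bound for the Hilbert transform of a nonnegative function on the adjacent intervals -/
theorem hilb_lower {g : ℝ → ℝ} (hg : Integrable g) (hg0 : ∀ y, 0 ≤ g y) {a L : ℝ} (hL : 0 < L)
    (hs : ∀ y, y ∉ Ioo a (a + L) → g y = 0) {x : ℝ}
    (hx : x ∈ Ioo (a + L) (a + 2 * L) ∨ x ∈ Ioo (a - L) a) :
    (2 * Real.pi * L)⁻¹ * ∫ y, g y ≤ ‖hilb (fun y => (g y : ℂ)) x‖ := by
  -- distance to the support
  obtain ⟨r, hr, hv⟩ : ∃ r : ℝ, 0 < r ∧ ∀ y, |y - x| < r → (g y : ℂ) = 0 := by
    rcases hx with hx | hx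
    · refine ⟨x - (a + L), by linarith [hx.1], fun y hy => ?_⟩
      rw [hs y (fun h => ?_), Complex.ofReal_zero]
      have := abs_lt.1 hy
      linarith [h.2]
    · refine ⟨a - x, by linarith [hx.2], fun y hy => ?_⟩
      rw [hs y (fun h => ?_), Complex.ofReal_zero]
      have := abs_lt.1 hy
      linarith [h.1]
  have hgc : Integrable (fun y => (g y : ℂ)) := hg.ofReal
  obtain ⟨h1, -⟩ := isPV_of_vanish hgc hr hv
  rw [hilb_eq h1, norm_mul, norm_inv, Complex.norm_real, Real.norm_of_nonneg Real.pi_pos.le]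
  have h2 : ∫ y, (g y : ℂ) / ((x - y : ℝ) : ℂ) = ((∫ y, g y / (x - y) : ℝ) : ℂ) := by
    rw [← integral_complex_ofReal]
    refine integral_congr_ae (Eventually.of_forall fun y => ?_)
    simp
  rw [h2, Complex.norm_real, Real.norm_eq_abs]
  have hgi : Integrable fun y => g y / (x - y) := by
    refine Integrable.mono' (hg.norm.const_mul r⁻¹) ?_ (Eventually.of_forall fun y => ?_)
    · refine AEMeasurable.aestronglyMeasurable ?_
      exact hg.1.aemeasurable.div (by fun_prop : Measurable fun y : ℝ => x - y).aemeasurable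
    · by_cases hy : |y - x| < r
      · have := hv y hy
        rw [Complex.ofReal_eq_zero] at this
        rw [this]
        simp
      · rw [norm_div, Real.norm_eq_abs (x - y), abs_sub_comm, div_eq_inv_mul]
        exact mul_le_mul_of_nonneg_right (inv_anti₀ hr (not_lt.1 hy)) (norm_nonneg _)
  have h3 : (2 * L)⁻¹ * ∫ y, g y ≤ |∫ y, g y / (x - y)| := by
    rcases hx with hx | hx
    · refine le_trans ?_ (le_abs_self _)
      rw [← integral_const_mul]
      refine integral_mono (hg.const_mul _) hgi fun y => ?_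
      by_cases hy : y ∈ Ioo a (a + L)
      · have e1 : 0 < x - y := by linarith [hy.2, hx.1]
        have e2 : x - y ≤ 2 * L := by linarith [hy.1, hx.2]
        simp only
        rw [div_eq_inv_mul]
        exact mul_le_mul_of_nonneg_right (inv_anti₀ e1 e2) (hg0 y)
      · simp only
        rw [hs y hy]
        simp
    · refine le_trans ?_ (neg_le_abs _)
      rw [← integral_const_mul, ← integral_neg]
      refine integral_mono (hg.const_mul _) hgi.neg fun y => ?_
      by_cases hy : y ∈ Ioo a (a + L)
      · have e1 : 0 < y - x := by linarith [hy.1, hx.2]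
        have e2 : y - x ≤ 2 * L := by linarith [hy.2, hx.1]
        simp only
        rw [show -(g y / (x - y)) = (y - x)⁻¹ * g y by
          rw [← neg_sub y x, div_neg, neg_neg, div_eq_inv_mul]]
        exact mul_le_mul_of_nonneg_right (inv_anti₀ e1 e2) (hg0 y)
      · simp only
        rw [hs y hy]
        simp
  calc (2 * Real.pi * L)⁻¹ * ∫ y, g y = Real.pi⁻¹ * ((2 * L)⁻¹ * ∫ y, g y) := by
        rw [mul_inv, mul_inv, mul_inv]
        ring
    _ ≤ _ := by gcongr

end Pool.Agent.R234.MZ
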