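import Mathlib
import Pool.Agent.R234.MZ.I

/-! The unrestricted inequality implies the Muckenhoupt condition. -/

set_option autoImplicit false

open MeasureTheory Filter Topology Set
open scoped ENNReal NNReal

namespace Pool.Agent.R234.MZ

theorem test_ineq {p : ℝ} (hp : 0 < p) {W : ℝ → ℝ≥0} (hW : Measurable W) {C : ℝ≥0}
    (hC : ∀ f : ℝ → ℂ, Integrable f → wint p W (hilb f) ≤ C * wint p W f)
    {g : ℝ → ℝ≥0} (hg : Measurable g) (hfin : ∫⁻ y, (g y : ℝ≥0∞) ≠ ⊤) {a L : ℝ} (hL : 0 < L)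
    (hs : ∀ y, y ∉ Ioo a (a + L) → g y = 0) {J : Set ℝ} (hJm : MeasurableSet J)
    (hJ : ∀ x ∈ J, x ∈ Ioo (a + L) (a + 2 * L) ∨ x ∈ Ioo (a - L) a) :
    (∫⁻ x in J, (W x : ℝ≥0∞)) * (∫⁻ y, (g y : ℝ≥0∞)) ^ p ≤
      C * ENNReal.ofReal (2 * Real.pi * L) ^ p * ∫⁻ y, (g y : ℝ≥0∞) ^ p * (W y : ℝ≥0∞) := by
  have hgi : Integrable (fun y => (g y : ℝ)) := by
    refine ⟨hg.coe_nnreal_real.aestronglyMeasurable, ?_⟩
    unfold HasFiniteIntegral
    refine lt_of_eq_of_lt (lintegral_congr fun y => ?_) hfin.lt_top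
    simp
  have hgc : Integrable (fun y => ((g y : ℝ) : ℂ)) := hgi.ofReal
  have hc0 : 0 < 2 * Real.pi * L := by positivity
  set c : ℝ≥0∞ := ENNReal.ofReal (2 * Real.pi * L) with hc
  have hc1 : c ≠ 0 := by
    rw [hc]
    exact (ENNReal.ofReal_pos.2 hc0).ne'
  have hc2 : c ≠ ⊤ := ENNReal.ofReal_ne_top
  have hI : ENNReal.ofReal ((2 * Real.pi * L)⁻¹ * ∫ y, (g y : ℝ)) = c⁻¹ * ∫⁻ y, (g y : ℝ≥0∞) := by
    rw [ENNReal.ofReal_mul (by positivity), ENNReal.ofReal_inv_of_pos hc0,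
      ofReal_integral_eq_lintegral_ofReal hgi (Eventually.of_forall fun y => (g y).2)]
    congr 1
    refine lintegral_congr fun y => ?_
    rw [ENNReal.ofReal_coe_nnreal]
  have h1 := hC _ hgc
  have h2 : (∫⁻ x in J, (W x : ℝ≥0∞)) * (c⁻¹ * ∫⁻ y, (g y : ℝ≥0∞)) ^ p ≤
      wint p W (hilb fun y => ((g y : ℝ) : ℂ)) := by
    rw [mul_comm, ← lintegral_const_mul _ hW.coe_nnreal_ennreal]
    unfold wint
    refine le_trans ?_ (setLIntegral_le_lintegral J _)
    refine setLIntegral_mono' hJm fun x hx => ?_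
    refine mul_le_mul_left (ENNReal.rpow_le_rpow ?_ hp.le) _
    rw [← hI, ← ofReal_norm]
    exact ENNReal.ofReal_le_ofReal (hilb_lower hgi (fun y => (g y).2) hL
      (fun y hy => by rw [hs y hy, NNReal.coe_zero]) (hJ x hx))
  have h3 : (∫⁻ y, (g y : ℝ≥0∞)) ^ p = c ^ p * (c⁻¹ * ∫⁻ y, (g y : ℝ≥0∞)) ^ p := by
    rw [← ENNReal.mul_rpow_of_nonneg _ _ hp.le, ← mul_assoc, ENNReal.mul_inv_cancel hc1 hc2,
      one_mul]
  have h4 : wint p W (fun y => ((g y : ℝ) : ℂ)) = ∫⁻ y, (g y : ℝ≥0∞) ^ p * (W y : ℝ≥0∞) := by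
    unfold wint
    refine lintegral_congr fun y => ?_
    congr 2
    rw [← ofReal_norm, Complex.norm_real, Real.norm_of_nonneg (NNReal.coe_nonneg _),
      ENNReal.ofReal_coe_nnreal]
  calc (∫⁻ x in J, (W x : ℝ≥0∞)) * (∫⁻ y, (g y : ℝ≥0∞)) ^ p
      = c ^ p * ((∫⁻ x in J, (W x : ℝ≥0∞)) * (c⁻¹ * ∫⁻ y, (g y : ℝ≥0∞)) ^ p) := by
        rw [h3]; ring
    _ ≤ c ^ p * (C * ∫⁻ y, (g y : ℝ≥0∞) ^ p * (W y : ℝ≥0∞)) := by
        rw [← h4]
        exact mul_le_mul_right (h2.trans h1) _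
    _ = _ := by ring

/-- the indicator with values in `ℝ≥0` -/
theorem lintegral_ind_coe {E : Set ℝ} (hE : MeasurableSet E) (φ : ℝ → ℝ≥0) :
    ∫⁻ y, ((indicator E φ y : ℝ≥0) : ℝ≥0∞) = ∫⁻ y in E, (φ y : ℝ≥0∞) := by
  rw [← lintegral_indicator hE]
  refine lintegral_congr fun y => ?_
  by_cases hy : y ∈ E
  · rw [indicator_of_mem hy, indicator_of_mem hy]
  · rw [indicator_of_notMem hy, indicator_of_notMem hy, ENNReal.coe_zero]

theorem lintegral_ind_pow {p : ℝ} (hp : 0 < p) {E : Set ℝ} (hE : MeasurableSet E) (φ W : ℝ → ℝ≥0) :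
    ∫⁻ y, ((indicator E φ y : ℝ≥0) : ℝ≥0∞) ^ p * (W y : ℝ≥0∞) =
      ∫⁻ y in E, (φ y : ℝ≥0∞) ^ p * (W y : ℝ≥0∞) := by
  rw [← lintegral_indicator hE]
  refine lintegral_congr fun y => ?_
  by_cases hy : y ∈ E
  · rw [indicator_of_mem hy, indicator_of_mem hy]
  · rw [indicator_of_notMem hy, indicator_of_notMem hy, ENNReal.coe_zero,
      ENNReal.zero_rpow_of_pos hp, zero_mul]

/-- finiteness on the adjacent interval -/
theorem weight_adj_finite {p : ℝ} (hp : 0 < p) {W : ℝ → ℝ≥0} (hW : Measurable W) {C : ℝ≥0}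
    (hC : ∀ f : ℝ → ℂ, Integrable f → wint p W (hilb f) ≤ C * wint p W f)
    {a L : ℝ} (hL : 0 < L) {J : Set ℝ} (hJm : MeasurableSet J)
    (hJ : ∀ x ∈ J, x ∈ Ioo (a + L) (a + 2 * L) ∨ x ∈ Ioo (a - L) a) :
    (∫⁻ x in J, (W x : ℝ≥0∞)) ≠ ⊤ := by
  set E : ℕ → Set ℝ := fun m => Ioo a (a + L) ∩ {x | W x ≤ m} with hE
  have hEm : ∀ m, MeasurableSet (E m) := fun m =>
    measurableSet_Ioo.inter (measurableSet_le hW measurable_const)
  obtain ⟨m, hm⟩ : ∃ m, 0 < volume (E m) := by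
    by_contra hcon
    push Not at hcon
    have h1 : volume (⋃ m, E m) = 0 := measure_iUnion_null fun m => le_zero_iff.1 (hcon m)
    have h2 : Ioo a (a + L) ⊆ ⋃ m, E m := by
      intro x hx
      obtain ⟨m, hm⟩ := exists_nat_ge (W x)
      exact mem_iUnion.2 ⟨m, hx, hm⟩
    have h3 := (measure_mono h2).trans_eq h1
    rw [Real.volume_Ioo, le_zero_iff, ENNReal.ofReal_eq_zero] at h3
    linarith
  have hmf : volume (E m) ≠ ⊤ := by
    refine ne_top_of_le_ne_top ?_ (measure_mono (inter_subset_left : E m ⊆ Ioo a (a + L)))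
    rw [Real.volume_Ioo]
    exact ENNReal.ofReal_ne_top
  have h1 := test_ineq hp hW hC (g := indicator (E m) (fun _ => (1 : ℝ≥0)))
    (measurable_const.indicator (hEm m)) (by
      rw [lintegral_ind_coe (hEm m)]
      simpa using hmf) hL (fun y hy => indicator_of_notMem (fun h => hy h.1) _) hJm hJ
  rw [lintegral_ind_coe (hEm m), lintegral_ind_pow hp (hEm m)] at h1
  simp only [ENNReal.coe_one, ENNReal.one_rpow, one_mul, lintegral_const, Measure.restrict_apply,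
    MeasurableSet.univ, univ_inter] at h1
  intro htop
  rw [htop, ENNReal.top_mul (by
    rw [ne_eq, ENNReal.rpow_eq_zero_iff]
    push Not
    exact ⟨fun h => absurd h hm.ne', fun h => absurd h hmf⟩), top_le_iff] at h1
  refine ENNReal.mul_ne_top (ENNReal.mul_ne_top ENNReal.coe_ne_top
    (ENNReal.rpow_ne_top_of_nonneg hp.le ENNReal.ofReal_ne_top)) ?_ h1
  refine ne_top_of_le_ne_top ?_ (setLIntegral_mono' (hEm m) (g := fun _ => ((m : ℝ≥0) : ℝ≥0∞))
    fun x hx => by exact_mod_cast hx.2)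
  rw [lintegral_const, Measure.restrict_apply MeasurableSet.univ, univ_inter]
  exact ENNReal.mul_ne_top ENNReal.coe_ne_top hmf

/-- comparison of adjacent intervals -/
theorem weight_adj_le {p : ℝ} (hp : 0 < p) {W : ℝ → ℝ≥0} (hW : Measurable W) {C : ℝ≥0}
    (hC : ∀ f : ℝ → ℂ, Integrable f → wint p W (hilb f) ≤ C * wint p W f)
    {a L : ℝ} (hL : 0 < L) {J : Set ℝ} (hJm : MeasurableSet J)
    (hJ : ∀ x ∈ J, x ∈ Ioo (a + L) (a + 2 * L) ∨ x ∈ Ioo (a - L) a) :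
    (∫⁻ x in J, (W x : ℝ≥0∞)) ≤ C * ENNReal.ofReal (2 * Real.pi) ^ p *
      ∫⁻ x in Ioo a (a + L), (W x : ℝ≥0∞) := by
  have h1 := test_ineq hp hW hC (g := indicator (Ioo a (a + L)) (fun _ => (1 : ℝ≥0)))
    (measurable_const.indicator measurableSet_Ioo) (by
      rw [lintegral_ind_coe measurableSet_Ioo]
      simp) hL (fun y hy => indicator_of_notMem hy _) hJm hJ
  rw [lintegral_ind_coe measurableSet_Ioo, lintegral_ind_pow hp measurableSet_Ioo] at h1
  simp only [ENNReal.coe_one, ENNReal.one_rpow, one_mul, lintegral_const, Measure.restrict_apply,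
    MeasurableSet.univ, univ_inter, Real.volume_Ioo, add_sub_cancel_left] at h1
  have hL1 : ENNReal.ofReal L ^ p ≠ 0 := by
    rw [ne_eq, ENNReal.rpow_eq_zero_iff]
    push Not
    exact ⟨fun h => absurd h (ENNReal.ofReal_pos.2 hL).ne', fun h => absurd h ENNReal.ofReal_ne_top⟩
  have hL2 : ENNReal.ofReal L ^ p ≠ ⊤ :=
    ENNReal.rpow_ne_top_of_nonneg hp.le ENNReal.ofReal_ne_top
  rw [ENNReal.ofReal_mul (by positivity), ENNReal.mul_rpow_of_nonneg _ _ hp.le] at h1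
  have h2 : ENNReal.ofReal L ^ p * (∫⁻ x in J, (W x : ℝ≥0∞)) ≤ ENNReal.ofReal L ^ p *
      (C * ENNReal.ofReal (2 * Real.pi) ^ p * ∫⁻ x in Ioo a (a + L), (W x : ℝ≥0∞)) := by
    refine le_trans (le_of_eq (mul_comm _ _)) (h1.trans (le_of_eq ?_))
    ring
  exact (ENNReal.mul_le_mul_iff_right hL1 hL2).1 h2

/-- the Muckenhoupt product on adjacent intervals -/
theorem adj_product {p : ℝ} (hp : 1 < p) {W : ℝ → ℝ≥0} (hW : Measurable W) {C : ℝ≥0}
    (hC : ∀ f : ℝ → ℂ, Integrable f → wint p W (hilb f) ≤ C * wint p W f)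
    {a L : ℝ} (hL : 0 < L) {J : Set ℝ} (hJm : MeasurableSet J)
    (hJ : ∀ x ∈ J, x ∈ Ioo (a + L) (a + 2 * L) ∨ x ∈ Ioo (a - L) a) :
    (∫⁻ x in J, (W x : ℝ≥0∞)) *
      (∫⁻ x in Ioo a (a + L), (W x : ℝ≥0∞) ^ (-(1 / (p - 1)))) ^ (p - 1) ≤
      C * ENNReal.ofReal (2 * Real.pi * L) ^ p := by
  have hp0 : 0 < p := by linarith
  have hp1 : 0 < p - 1 := by linarith
  set I : Set ℝ := Ioo a (a + L) with hI
  have hIm : MeasurableSet I := measurableSet_Ioo
  set σ : ℝ → ℝ≥0∞ := fun x => (W x : ℝ≥0∞) ^ (-(1 / (p - 1))) with hσ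
  have hσm : Measurable σ := hW.coe_nnreal_ennreal.pow_const _
  have hJf := weight_adj_finite hp0 hW hC hL hJm hJ
  -- the truncated functions
  set φ : ℕ → ℝ → ℝ≥0∞ := fun m x => min (σ x) m with hφ
  have hφt : ∀ m x, φ m x ≠ ⊤ := fun m x =>
    ne_top_of_le_ne_top (ENNReal.natCast_ne_top m) (min_le_right _ _)
  have hφm : ∀ m, Measurable (φ m) := fun m => hσm.min measurable_const
  have hkey : ∀ m, (∫⁻ x in J, (W x : ℝ≥0∞)) * (∫⁻ x in I, φ m x) ^ (p - 1) ≤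
      C * ENNReal.ofReal (2 * Real.pi * L) ^ p := by
    intro m
    have hfin : ∫⁻ x in I, φ m x ≠ ⊤ := by
      refine ne_top_of_le_ne_top ?_ (setLIntegral_mono' hIm (g := fun _ => ((m : ℝ≥0) : ℝ≥0∞))
        fun x _ => min_le_right _ _)
      rw [lintegral_const, Measure.restrict_apply MeasurableSet.univ, univ_inter, hI,
        Real.volume_Ioo]
      exact ENNReal.mul_ne_top ENNReal.coe_ne_top ENNReal.ofReal_ne_top
    have hco : ∀ x, (((φ m x).toNNReal : ℝ≥0) : ℝ≥0∞) = φ m x := fun x =>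
      ENNReal.coe_toNNReal (hφt m x)
    have h1 := test_ineq hp0 hW hC (g := indicator I (fun x => (φ m x).toNNReal))
      ((hφm m).ennreal_toNNReal.indicator hIm) (by
        rw [lintegral_ind_coe hIm]
        simp only [hco]
        exact hfin) hL (fun y hy => indicator_of_notMem hy _) hJm hJ
    rw [lintegral_ind_coe hIm, lintegral_ind_pow hp0 hIm] at h1
    simp only [hco] at h1
    have h2 : ∫⁻ x in I, φ m x ^ p * (W x : ℝ≥0∞) ≤ ∫⁻ x in I, φ m x := by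
      refine lintegral_mono fun x => ?_
      rcases eq_or_ne (W x) 0 with h0 | h0
      · simp only
        rw [h0, ENNReal.coe_zero, mul_zero]
        exact zero_le
      · have h3 : φ m x ^ (p - 1) * (W x : ℝ≥0∞) ≤ 1 := by
          have h4 : φ m x ^ (p - 1) ≤ (W x : ℝ≥0∞)⁻¹ := by
            refine (ENNReal.rpow_le_rpow (min_le_left _ _) hp1.le).trans (le_of_eq ?_)
            rw [hσ]
            simp only
            rw [← ENNReal.rpow_mul, show -(1 / (p - 1)) * (p - 1) = -1 by field_simp,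
              ENNReal.rpow_neg_one]
          refine (mul_le_mul_left h4 _).trans (le_of_eq ?_)
          exact ENNReal.inv_mul_cancel (by exact_mod_cast h0) ENNReal.coe_ne_top
        have h5 : φ m x ^ p = φ m x * φ m x ^ (p - 1) := by
          rcases eq_or_ne (φ m x) 0 with h6 | h6
          · rw [h6, ENNReal.zero_rpow_of_pos hp0, zero_mul]
          · have h7 := ENNReal.rpow_add 1 (p - 1) h6 (hφt m x)
            rw [ENNReal.rpow_one, show 1 + (p - 1) = p by ring] at h7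
            exact h7
        simp only
        rw [h5, mul_assoc]
        exact (mul_le_mul_right h3 _).trans_eq (mul_one _)
    rcases eq_or_ne (∫⁻ x in I, φ m x) 0 with h0 | h0
    · rw [h0, ENNReal.zero_rpow_of_pos hp1, mul_zero]
      exact zero_le
    · have h3 : (∫⁻ x in I, φ m x) ^ p = (∫⁻ x in I, φ m x) * (∫⁻ x in I, φ m x) ^ (p - 1) := by
        have h7 := ENNReal.rpow_add 1 (p - 1) h0 hfin
        rw [ENNReal.rpow_one, show 1 + (p - 1) = p by ring] at h7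
        exact h7
      have h4 := h1.trans (mul_le_mul_right h2 _)
      rw [h3] at h4
      refine (ENNReal.mul_le_mul_iff_right h0 hfin).1 (le_trans (le_of_eq ?_)
        (h4.trans (le_of_eq ?_)))
      · ring
      · ring
  have hlim : Tendsto (fun m => ∫⁻ x in I, φ m x) atTop (𝓝 (∫⁻ x in I, σ x)) := by
    refine lintegral_tendsto_of_tendsto_of_monotone (fun m => (hφm m).aemeasurable)
      (Eventually.of_forall fun x => ?_) (Eventually.of_forall fun x => ?_)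
    · intro m n hmn
      exact min_le_min le_rfl (by exact_mod_cast hmn)
    · have h1 : Tendsto (fun m : ℕ => min (σ x) (m : ℝ≥0∞)) atTop (𝓝 (min (σ x) ⊤)) :=
        tendsto_const_nhds.min ENNReal.tendsto_nat_nhds_top
      rwa [min_top_right] at h1
  have hlim2 : Tendsto (fun m => (∫⁻ x in J, (W x : ℝ≥0∞)) * (∫⁻ x in I, φ m x) ^ (p - 1)) atTop
      (𝓝 ((∫⁻ x in J, (W x : ℝ≥0∞)) * (∫⁻ x in I, σ x) ^ (p - 1))) :=
    ENNReal.Tendsto.const_mul (((ENNReal.continuous_rpow_const (y := p - 1)).tendsto _).comp hlim)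
      (Or.inr hJf)
  exact le_of_tendsto hlim2 (Eventually.of_forall hkey)

/-- the unrestricted inequality implies the Muckenhoupt condition -/
theorem isAp_of_unrestricted {p : ℝ} (hp : 1 < p) {W : ℝ → ℝ≥0} (hW : Measurable W)
    (hA : Unrestricted p W) : IsAp p W := by
  obtain ⟨C, hC⟩ := hA
  have hp0 : 0 < p := by linarith
  have hp1 : 0 < p - 1 := by linarith
  have hpi : (0 : ℝ) ≤ 2 * Real.pi := by positivity
  refine ⟨C * Real.toNNReal (2 * Real.pi) ^ p * (C * Real.toNNReal (2 * Real.pi) ^ p), ?_⟩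
  intro a b hab
  set L : ℝ := b - a with hL
  have hL0 : 0 < L := by rw [hL]; linarith
  have hb : b = a + L := by rw [hL]; ring
  rw [hb]
  set I : Set ℝ := Ioo a (a + L) with hI
  set J : Set ℝ := Ioo (a + L) (a + L + L) with hJd
  have h1 := adj_product hp hW hC hL0 (a := a) (J := J) measurableSet_Ioo (fun x hx =>
    Or.inl ⟨hx.1, by have := hx.2; linarith⟩)
  have h2 := weight_adj_le hp0 hW hC hL0 (a := a + L) (J := I) measurableSet_Ioo (fun x hx =>
    Or.inr ⟨by have := hx.1; linarith, hx.2⟩)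
  have hc : ENNReal.ofReal (2 * Real.pi) ^ p = ((Real.toNNReal (2 * Real.pi) ^ p : ℝ≥0) : ℝ≥0∞) :=
    by rw [ENNReal.coe_rpow_of_nonneg _ hp0.le]; rfl
  rw [ENNReal.ofReal_mul hpi, ENNReal.mul_rpow_of_nonneg _ _ hp0.le, hc] at h1
  rw [hc] at h2
  set s : ℝ≥0∞ := (∫⁻ x in I, (W x : ℝ≥0∞) ^ (-(1 / (p - 1)))) ^ (p - 1) with hs
  set d : ℝ≥0 := Real.toNNReal (2 * Real.pi) ^ p with hd
  calc (∫⁻ x in I, (W x : ℝ≥0∞)) * s
      ≤ (C * d * ∫⁻ x in J, (W x : ℝ≥0∞)) * s := mul_le_mul_left h2 _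
    _ = C * d * ((∫⁻ x in J, (W x : ℝ≥0∞)) * s) := by ring
    _ ≤ C * d * (C * (d * ENNReal.ofReal L ^ p)) := mul_le_mul_right h1 _
    _ = _ := by
      push_cast
      ring

end Pool.Agent.R234.MZ
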